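import Mathlib

/-!
# Trees of path-width `k` which are not nonrepetitively `2k`-choosable: definitions

Vertices: legal words over `Option (Fin M)` (head = deepest letter).  The letter `none` goes to the
next vertex of the same spine, the letter `some b` to the first vertex of a spine of the next lower
level.  `[]` is the first vertex of the top spine (level `k`), leaves have level `0`; a spine has the
positions `0, ..., L`.
-/

set_option autoImplicit false

namespace Pool.Agent.H54Q

/-- level and position of a word -/
def st {M : ℕ} (k : ℕ) : List (Option (Fin M)) → ℕ × ℕ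
  | [] => (k, 0)
  | none :: w => ((st k w).1, (st k w).2 + 1)
  | some _ :: w => ((st k w).1 - 1, 0)

/-- legal words -/
def Legal {M : ℕ} (k L : ℕ) : List (Option (Fin M)) → Prop
  | [] => True
  | none :: w => Legal k L w ∧ 1 ≤ (st k w).1 ∧ (st k w).2 < L
  | some _ :: w => Legal k L w ∧ 1 ≤ (st k w).1

/-- The vertices. -/
abbrev VS (k L M : ℕ) : Type := {w : List (Option (Fin M)) // Legal k L w}

/-- `w` and `b :: w` are adjacent. -/
def GS (k L M : ℕ) : SimpleGraph (VS k L M) where
  Adj u v := (∃ b, u.1 = b :: v.1) ∨ (∃ b, v.1 = b :: u.1)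
  symm := ⟨fun _ _ h => h.symm⟩
  loopless := ⟨fun u h => by
    rcases h with ⟨b, hb⟩ | ⟨b, hb⟩
    · have := congrArg List.length hb
      simp at this
    · have := congrArg List.length hb
      simp at this⟩

/-- The words from `t ++ v` (first) up to the child of `v` (last). -/
def upl {α : Type} (v : List α) : List α → List (List α)
  | [] => []
  | b :: t => ((b :: t) ++ v) :: upl v t

/-- parent and child -/
def Par {α : Type} (u v : List α) : Prop := (∃ b, u = b :: v) ∨ (∃ b, v = b :: u)

/-- The node of level `k - d` of a configuration: `β` which of the two families of spines, `p` the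
positions (`p 0` on the top spine), `u d` the word of colours of the spine of depth `d + 1`. -/
def nd {M : ℕ} (ch : Bool → List (Option (Fin M)) → (ℕ → ℕ) → Fin M) (β : ℕ → Bool) (p : ℕ → ℕ)
    (u : ℕ → ℕ → ℕ) : ℕ → List (Option (Fin M))
  | 0 => List.replicate (p 0) none
  | d + 1 => List.replicate (p (d + 1)) none ++
      some (ch (β d) (nd ch β p u d) (u d)) :: nd ch β p u d

/-- The word `y` of colours is the word of a spine of the family `β` at `v`, and `ch` chooses it. -/
def Avail {M : ℕ} (L : ℕ) (f : List (Option (Fin M)) → ℕ) (tag : Fin M → Bool)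
    (ch : Bool → List (Option (Fin M)) → (ℕ → ℕ) → Fin M) (β : Bool) (v : List (Option (Fin M)))
    (y : ℕ → ℕ) : Prop :=
  tag (ch β v y) = β ∧ ∀ j, j ≤ L → f (List.replicate j none ++ some (ch β v y) :: v) = y j

/-- The colours of the lower spines: letter `x` at the index `π (d, j)`. -/
def uu {K L : ℕ} (x : Fin K × Fin (L + 1) → ℕ) (π : Equiv.Perm (Fin K × Fin (L + 1))) : ℕ → ℕ → ℕ :=
  fun d j => if h : d < K ∧ j < L + 1 then x (π (⟨d, h.1⟩, ⟨j, h.2⟩)) else 0

/-- The indices below the node of depth `e`, from top to bottom. -/
def qq (K L : ℕ) (p : ℕ → ℕ) (e : ℕ) : List (Fin K × Fin (L + 1)) :=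
  (List.finRange K).flatMap fun d => if e ≤ d.1 then
    ((List.finRange (L + 1)).filter fun j => j.1 ≤ p (d.1 + 1)).map fun j => (d, j) else []

end Pool.Agent.H54Q
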