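import Pool.Agent.Lib.H54Q.Def

set_option autoImplicit false

namespace Pool.Agent.H54Q

private theorem bound {M : ℕ} (k L : ℕ) : ∀ w : List (Option (Fin M)), Legal k L w →
    (st k w).2 ≤ L ∧ w.length + (st k w).1 * (L + 1) ≤ k * (L + 1) + (st k w).2
  | [], _ => by simp [st]
  | none :: w, h => by
    obtain ⟨h1, h2, h3⟩ := h
    obtain ⟨h4, h5⟩ := bound k L w h1
    refine ⟨h3, ?_⟩
    show (none :: w).length + (st k w).1 * (L + 1) ≤ k * (L + 1) + ((st k w).2 + 1)
    rw [List.length_cons]
    omega
  | some b :: w, h => by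
    obtain ⟨h1, h2⟩ := h
    obtain ⟨h4, h5⟩ := bound k L w h1
    refine ⟨Nat.zero_le _, ?_⟩
    show (some b :: w).length + ((st k w).1 - 1) * (L + 1) ≤ k * (L + 1) + 0
    rw [List.length_cons]
    obtain ⟨m, hm⟩ := Nat.exists_eq_add_of_le' h2
    rw [hm] at h5 ⊢
    rw [Nat.add_sub_cancel]
    rw [Nat.add_mul, Nat.one_mul] at h5
    omega

/-- The graph is a finite tree (S-M).

Proof.  Compare `H54LB/T1.lean` (same proof for all words of length `≤ k`).  Finite: a legal word has length at most
`(k + 1) * (L + 1)` (potential `(level) * (L + 1) + (L - position)`).  Connected: `Legal` passes to tails, induction on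
the length.  Acyclic: every edge `b :: w`, `w` is a bridge, as the words with the suffix `b :: w` are not joined to
the others when it is deleted. -/
theorem finite (k L M : ℕ) : Finite (VS k L M) :=
  ((List.finite_length_le (Option (Fin M)) (k * (L + 1) + L)).subset fun w hw => by
    have h := bound k L w hw
    show w.length ≤ k * (L + 1) + L
    have := Nat.zero_le ((st k w).1 * (L + 1))
    omega).to_subtype

private theorem suffix_step {k L M : ℕ} {v w a a' : VS k L M} {b : Option (Fin M)} (hvw : v.1 = b :: w.1)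
    (h : ((GS k L M).deleteEdges {s(v, w)}).Adj a a') (ha : v.1 <:+ a.1) :
    v.1 <:+ a'.1 := by
  rw [SimpleGraph.deleteEdges_adj] at h
  obtain ⟨h1, h2⟩ := h
  rcases h1 with ⟨c, hc⟩ | ⟨c, hc⟩
  · rw [hc, List.suffix_cons_iff] at ha
    rcases ha with ha | ha
    · exfalso
      apply h2
      have h3 : v = a := Subtype.ext (ha.trans hc.symm)
      have h4 : w = a' := by
        rw [hvw] at ha
        exact Subtype.ext (List.cons.inj ha).2
      rw [h3, h4]
      exact Set.mem_singleton _
    · exact ha
  · rw [hc]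
    exact ha.trans (List.suffix_cons _ _)

private theorem suffix_walk {k L M : ℕ} {v w : VS k L M} {b : Option (Fin M)} (hvw : v.1 = b :: w.1)
    {a x : VS k L M} (p : ((GS k L M).deleteEdges {s(v, w)}).Walk a x) :
    v.1 <:+ a.1 → v.1 <:+ x.1 := by
  induction p with
  | nil => exact id
  | cons h p ih => exact fun ha => ih (suffix_step hvw h ha)

private theorem bridge {k L M : ℕ} {v w : VS k L M} {b : Option (Fin M)} (hvw : v.1 = b :: w.1) :
    (GS k L M).IsBridge s(v, w) := by
  rw [SimpleGraph.isBridge_iff]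
  rintro ⟨p⟩
  have h1 := (suffix_walk hvw p List.suffix_rfl).length_le
  rw [hvw] at h1
  simp at h1

private theorem legal_tail {k L M : ℕ} {b : Option (Fin M)} {w : List (Option (Fin M))} (h : Legal k L (b :: w)) :
    Legal k L w := by
  cases b with
  | none => exact h.1
  | some b => exact h.1

private theorem reach {k L M : ℕ} : ∀ (w : List (Option (Fin M))) (hw : Legal k L w),
    (GS k L M).Reachable ⟨w, hw⟩ ⟨[], trivial⟩
  | [], _ => SimpleGraph.Reachable.refl _
  | b :: w, hw => by
    have hw' : Legal k L w := legal_tail hw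
    have hadj : (GS k L M).Adj ⟨b :: w, hw⟩ ⟨w, hw'⟩ := Or.inl ⟨b, rfl⟩
    exact hadj.reachable.trans (reach w hw')

theorem isTree (k L M : ℕ) : (GS k L M).IsTree := by
  have hne : Nonempty (VS k L M) := ⟨⟨[], trivial⟩⟩
  refine ⟨?_, ?_⟩
  · exact SimpleGraph.Connected.mk fun u v => (reach u.1 u.2).trans (reach v.1 v.2).symm
  · rw [SimpleGraph.isAcyclic_iff_forall_adj_isBridge]
    intro v w h
    rcases h with ⟨b, hb⟩ | ⟨b, hb⟩
    · exact bridge hb
    · rw [Sym2.eq_swap]
      exact bridge hb

end Pool.Agent.H54Q
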