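import Pool.Agent.Lib.H54Q.Q6

set_option autoImplicit false

namespace Pool.Agent.H54Q

private theorem upl_app {α : Type} (v t₂ : List α) : ∀ t₁ : List α,
    upl v (t₁ ++ t₂) = upl (t₂ ++ v) t₁ ++ upl v t₂
  | [] => rfl
  | b :: t₁ => by
    show ((b :: (t₁ ++ t₂)) ++ v) :: upl v (t₁ ++ t₂) = ((b :: t₁) ++ (t₂ ++ v)) :: (upl (t₂ ++ v) t₁ ++ upl v t₂)
    rw [upl_app v t₂ t₁]
    simp

private theorem upl_spine {α : Type} (f : List (Option α) → ℕ) (v : List (Option α)) (b : α) : ∀ n : ℕ,
    (upl v (List.replicate n none ++ [some b])).map f =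
      ((List.range (n + 1)).map fun j => f (List.replicate j none ++ some b :: v)).reverse
  | 0 => rfl
  | n + 1 => by
    rw [List.range_succ, List.map_append, List.reverse_append, ← upl_spine f v b n]
    show f (((List.replicate (n + 1) none) ++ [some b]) ++ v) :: (upl v (List.replicate n none ++ [some b])).map f = _
    simp

private theorem range_filter (n : ℕ) : ∀ m : ℕ, (List.range m).filter (fun j => decide (j ≤ n)) =
    List.range (min m (n + 1))
  | 0 => by simp
  | m + 1 => by
    rw [List.range_succ, List.filter_append, range_filter n m]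
    by_cases h : m ≤ n
    · rw [List.filter_cons_of_pos (by simpa using h), List.filter_nil,
        show min m (n + 1) = m by omega, show min (m + 1) (n + 1) = m + 1 by omega, List.range_succ]
    · rw [List.filter_cons_of_neg (by simpa using h), List.filter_nil, List.append_nil,
        show min m (n + 1) = min (m + 1) (n + 1) by omega]

private theorem fin_filter (L n : ℕ) (hn : n ≤ L) :
    (((List.finRange (L + 1)).filter fun j => decide (j.1 ≤ n)).map fun j => j.1) = List.range (n + 1) := by
  have h1 : (List.finRange (L + 1)).map (fun j => j.1) = List.range (L + 1) := List.map_coe_finRange_eq_range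
  have h2 := range_filter n (L + 1)
  rw [← h1, List.filter_map] at h2
  rw [show min (L + 1) (n + 1) = n + 1 by omega] at h2
  exact h2

private theorem flat_split {K : ℕ} {γ : Type} (blk : Fin K → List γ) (e : Fin K) : ∀ l : List (Fin K),
    l.Pairwise (· < ·) → e ∈ l →
    (l.flatMap fun d => if e.1 ≤ d.1 then blk d else []) =
      blk e ++ l.flatMap fun d => if e.1 + 1 ≤ d.1 then blk d else []
  | [], _, h => absurd h List.not_mem_nil
  | a :: l, hp, h => by
    rw [List.pairwise_cons] at hp
    rw [List.flatMap_cons, List.flatMap_cons]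
    rcases lt_trichotomy a e with h1 | h1 | h1
    · have h2 : a.1 < e.1 := h1
      have h3 : e ∈ l := by
        rcases List.mem_cons.1 h with h3 | h3
        · exact absurd h3.symm h1.ne
        · exact h3
      rw [if_neg (by omega), if_neg (by omega), flat_split blk e l hp.2 h3]
      simp
    · subst h1
      rw [if_pos (le_refl _), if_neg (by omega)]
      have h2 : (l.flatMap fun d => if a.1 ≤ d.1 then blk d else []) =
          l.flatMap fun d => if a.1 + 1 ≤ d.1 then blk d else [] := by
        apply List.flatMap_congr
        intro d hd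
        have h3 : a.1 < d.1 := hp.1 d hd
        rw [if_pos h3.le, if_pos (by omega)]
      rw [h2]
      simp
    · rcases List.mem_cons.1 h with h3 | h3
      · exact absurd h3 h1.ne
      · exact absurd (hp.1 e h3) (by exact not_lt.2 h1.le)

/-- The colours on the way down from the node of depth `e` (M).

Proof.  Induction downwards from `e = K` (`t = []`, `qq K L p K = []`).  Step: `nd (e + 1) = replicate (p (e + 1)) none ++
some b :: nd e`, `t = t₁ ++ (replicate (p (e + 1)) none ++ [some b])`; the colours of
`replicate j none ++ some b :: nd e`, `j ≤ p (e + 1) ≤ L`, are `uu x π e j = x (π (e, j))` (`Avail`); `qq K L p e` is the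
block of `e` followed by `qq K L p (e + 1)` (the `flatMap` over `finRange K` with the condition `e ≤ d`). `upl v (t₁ ++ t₂)
= upl (t₂ ++ v) t₁ ++ upl v t₂`. -/
theorem path_down {M : ℕ} (K L : ℕ) (f : List (Option (Fin M)) → ℕ) (tag : Fin M → Bool)
    (ch : Bool → List (Option (Fin M)) → (ℕ → ℕ) → Fin M) (β : ℕ → Bool) (p : ℕ → ℕ) (hp : ∀ d, p d ≤ L)
    (x : Fin K × Fin (L + 1) → ℕ) (π : Equiv.Perm (Fin K × Fin (L + 1)))
    (hA : ∀ d, d < K → Avail L f tag ch (β d) (nd ch β p (uu x π) d) (uu x π d)) (e : ℕ) (he : e ≤ K) :
    ∃ t, nd ch β p (uu x π) K = t ++ nd ch β p (uu x π) e ∧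
      (upl (nd ch β p (uu x π) e) t).map f = ((qq K L p e).map fun i => x (π i)).reverse ∧
      (e < K → t.getLast? = some (some (ch (β e) (nd ch β p (uu x π) e) (uu x π e)))) ∧ (e = K → t = []) := by
  obtain ⟨n, hn⟩ : ∃ n, n = K - e := ⟨_, rfl⟩
  induction n generalizing e with
  | zero =>
    have h1 : e = K := by omega
    subst h1
    refine ⟨[], rfl, ?_, fun h => absurd h (lt_irrefl _), fun _ => rfl⟩
    have h2 : qq e L p e = [] := by
      unfold qq
      rw [List.flatMap_eq_nil_iff]
      intro d _
      rw [if_neg (by have := d.2; omega)]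
    rw [h2]
    rfl
  | succ n ih =>
    have heK : e < K := by omega
    obtain ⟨t₁, h1, h2, _, _⟩ := ih (e + 1) (by omega) (by omega)
    set v := nd ch β p (uu x π) e with hv
    set b := ch (β e) v (uu x π e) with hb
    have h3 : nd ch β p (uu x π) (e + 1) = List.replicate (p (e + 1)) none ++ some b :: v := rfl
    refine ⟨t₁ ++ (List.replicate (p (e + 1)) none ++ [some b]), ?_, ?_, ?_, fun h => absurd h (by omega)⟩
    · rw [h1, h3]; simp
    · have h4 : (List.replicate (p (e + 1)) none ++ [some b]) ++ v = nd ch β p (uu x π) (e + 1) := by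
        rw [h3]; simp
      rw [upl_app, h4, List.map_append, h2, upl_spine]
      have h5 : qq K L p e = (((List.finRange (L + 1)).filter fun j => decide (j.1 ≤ p (e + 1))).map
          fun j => ((⟨e, heK⟩ : Fin K), j)) ++ qq K L p (e + 1) := by
        unfold qq
        exact flat_split (fun d => ((List.finRange (L + 1)).filter fun j => decide (j.1 ≤ p (d.1 + 1))).map
          fun j => (d, j)) ⟨e, heK⟩ (List.finRange K) (List.pairwise_lt_finRange K) (List.mem_finRange _)
      rw [h5, List.map_append, List.reverse_append]
      congr 2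
      rw [← fin_filter L (p (e + 1)) (hp _), List.map_map, List.map_map]
      apply List.map_congr_left
      intro j hj
      have hj1 : j.1 ≤ p (e + 1) := by simpa using (List.mem_filter.1 hj).2
      have h6 := (hA e heK).2 j.1 (hj1.trans (hp _))
      show f (List.replicate j.1 none ++ some b :: v) = x (π (⟨e, heK⟩, j))
      rw [← hv, ← hb] at h6
      rw [h6]
      unfold uu
      rw [dif_pos ⟨heK, j.2⟩]
    · intro _
      simp

end Pool.Agent.H54Q
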