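import Pool.Agent.Lib.H54Q.Def

set_option autoImplicit false

namespace Pool.Agent.H54Q

/-- Reversal of a list without repetitions by a permutation; facts on `qq` (S-M).

Proof.  `ρ t = q[q.length - 1 - q.idxOf t]` if `t ∈ q`, else `t`: an involution. -/
theorem exists_rev {T : Type} [DecidableEq T] (q : List T) (hq : q.Nodup) :
    ∃ ρ : Equiv.Perm T, q.map ρ = q.reverse ∧ ∀ t, t ∉ q → ρ t = t := by
  let f : T → T := fun t => if t ∈ q then q.reverse.getD (q.idxOf t) t else t
  have hf : ∀ (i : ℕ) (hi : i < q.length), f q[i] = q[q.length - 1 - i]'(by omega) := by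
    intro i hi
    have h1 : q[i] ∈ q := List.getElem_mem hi
    simp only [f, if_pos h1]
    rw [hq.idxOf_getElem i hi, List.getD_eq_getElem _ _ (by rw [List.length_reverse]; exact hi),
      List.getElem_reverse]
  have hinv : Function.Involutive f := by
    intro t
    by_cases h : t ∈ q
    · obtain ⟨i, hi, rfl⟩ := List.getElem_of_mem h
      rw [hf i hi, hf (q.length - 1 - i) (by omega)]
      congr 1
      omega
    · simp only [f, if_neg h]
  refine ⟨hinv.toPerm f, ?_, fun t ht => ?_⟩
  · refine List.ext_getElem (by simp) fun i h1 h2 => ?_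
    rw [List.getElem_map, List.getElem_reverse]
    exact hf i (by simpa using h1)
  · show f t = t
    simp only [f, if_neg ht]

theorem mem_qq (K L : ℕ) (p : ℕ → ℕ) (e : ℕ) (i : Fin K × Fin (L + 1)) :
    i ∈ qq K L p e ↔ e ≤ i.1.1 ∧ i.2.1 ≤ p (i.1.1 + 1) := by
  obtain ⟨d, j⟩ := i
  unfold qq
  rw [List.mem_flatMap]
  constructor
  · rintro ⟨d', -, h⟩
    by_cases he : e ≤ d'.1
    · rw [if_pos he, List.mem_map] at h
      obtain ⟨j', h1, h2⟩ := h
      rw [List.mem_filter] at h1
      simp only [Prod.mk.injEq] at h2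
      obtain ⟨rfl, rfl⟩ := h2
      exact ⟨he, by simpa using h1.2⟩
    · rw [if_neg he] at h
      exact absurd h List.not_mem_nil
  · rintro ⟨h1, h2⟩
    refine ⟨d, List.mem_finRange d, ?_⟩
    rw [if_pos h1, List.mem_map]
    exact ⟨j, List.mem_filter.2 ⟨List.mem_finRange j, by simpa using h2⟩, rfl⟩

theorem qq_nodup (K L : ℕ) (p : ℕ → ℕ) (e : ℕ) : (qq K L p e).Nodup := by
  unfold qq
  rw [List.nodup_flatMap]
  constructor
  · intro d _
    by_cases he : e ≤ d.1
    · rw [if_pos he]
      exact ((List.nodup_finRange _).filter _).map fun a b h => by simpa using h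
    · rw [if_neg he]
      exact List.nodup_nil
  · refine (List.nodup_finRange K).imp fun {a b} hab => ?_
    intro x h1 h2
    have key : ∀ c : Fin K, x ∈ (if e ≤ c.1 then
        ((List.finRange (L + 1)).filter fun j => j.1 ≤ p (c.1 + 1)).map fun j => (c, j) else []) →
        x.1 = c := by
      intro c h
      by_cases he : e ≤ c.1
      · rw [if_pos he, List.mem_map] at h
        obtain ⟨j', -, h2⟩ := h
        rw [← h2]
      · rw [if_neg he] at h
        exact absurd h List.not_mem_nil
    exact hab ((key a h1).symm.trans (key b h2))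

theorem qq_congr (K L : ℕ) (p p' : ℕ → ℕ) (e : ℕ) (h : ∀ d, e < d → p d = p' d) :
    qq K L p e = qq K L p' e := by
  unfold qq
  congr 1
  funext d
  by_cases he : e ≤ d.1
  · rw [if_pos he, if_pos he, h (d.1 + 1) (by omega)]
  · rw [if_neg he, if_neg he]

end Pool.Agent.H54Q
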