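import Pool.Agent.Lib.H54Q.Def

set_option autoImplicit false

namespace Pool.Agent.H54Q

private theorem card_lt_L (K L : ℕ) (e : Fin (K + 1)) :
    (Finset.univ.filter fun p : Fin (K + 1) → Fin (L + 1) => (p e).1 < L).card = L * (L + 1) ^ K := by
  classical
  have h0 : (Finset.univ.filter fun p : Fin (K + 1) → Fin (L + 1) => (p e).1 < L) =
      Fintype.piFinset (fun e' => if e' = e then Finset.univ.erase (Fin.last L) else Finset.univ) := by
    ext p
    rw [Fintype.mem_piFinset]
    constructor
    · intro h e'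
      by_cases he : e' = e
      · subst he
        rw [if_pos rfl, Finset.mem_erase]
        refine ⟨fun h' => ?_, Finset.mem_univ _⟩
        have := (Finset.mem_filter.1 h).2
        rw [h'] at this
        simp at this
      · rw [if_neg he]
        exact Finset.mem_univ _
    · intro h
      have := h e
      rw [if_pos rfl, Finset.mem_erase] at this
      refine Finset.mem_filter.2 ⟨Finset.mem_univ _, ?_⟩
      have h1 : (p e).1 ≠ L := fun h' => this.1 (Fin.ext (by simpa using h'))
      have := (p e).2
      omega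
  rw [h0, Fintype.card_piFinset, ← Finset.mul_prod_erase Finset.univ _ (Finset.mem_univ e), if_pos rfl,
    Finset.card_erase_of_mem (Finset.mem_univ _), Finset.card_univ, Fintype.card_fin]
  have h1 : ∏ x ∈ Finset.univ.erase e,
      (if x = e then (Finset.univ : Finset (Fin (L + 1))).erase (Fin.last L) else Finset.univ).card =
      (L + 1) ^ K := by
    rw [Finset.prod_congr rfl (g := fun _ => L + 1)]
    · rw [Finset.prod_const, Finset.card_erase_of_mem (Finset.mem_univ _), Finset.card_univ, Fintype.card_fin]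
      rfl
    · intro x hx
      rw [if_neg (Finset.ne_of_mem_erase hx), Finset.card_univ, Fintype.card_fin]
  rw [h1]
  rfl

/-- Counting (M).

Proof.  `k = K + 1`, `n = ` number of permutations.  For `(π, p)` and `e` let `up e = 1` if `p e < L` and
`col π e (p e + 1) ∈ A π p`, `dn e = 1` if `0 < p e` and `col π e (p e - 1) ∈ A π p` (else `0`).  By `hcol` and
`hown` `(A π p).card ≥ Σ e, (1 + up e + dn e)` (the `3 k` colours are different).  For fixed `e` the map
`(π, p) ↦ (R p e π, Function.update p e (p e + 1))` is a bijection from `{p e < L}` onto `{0 < p e}` (`R` there for the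
old `p`; inverse: lower `p e` by one, then `(R p e).symm`), and by `hnb` and `hR` `up e (π, p) + dn e (image) ≥ 1`.  So
`Σ (A π p).card ≥ n (L + 1) ^ k * k + k * n * L * (L + 1) ^ (k - 1)`, which is more than
`(2 k - 1) n (L + 1) ^ k`, because `k L > (k - 1) (L + 1)` for `k ≤ L`. -/
theorem count (K L : ℕ) (hL : K + 1 ≤ L)
    (col : Equiv.Perm (Fin K × Fin (L + 1)) → Fin (K + 1) → Fin (L + 1) → ℕ)
    (A : Equiv.Perm (Fin K × Fin (L + 1)) → (Fin (K + 1) → Fin (L + 1)) → Finset ℕ)
    (R : (Fin (K + 1) → Fin (L + 1)) → Fin (K + 1) →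
      Equiv.Perm (Fin K × Fin (L + 1)) ≃ Equiv.Perm (Fin K × Fin (L + 1)))
    (hcol : ∀ π, Function.Injective fun ej : Fin (K + 1) × Fin (L + 1) => col π ej.1 ej.2)
    (hR : ∀ p e π j, col (R p e π) e j = col π e j)
    (hown : ∀ π p e, col π e (p e) ∈ A π p)
    (hnb : ∀ π p e (j : Fin (L + 1)), j.1 = (p e).1 + 1 →
      col π e j ∈ A π p ∨ col π e (p e) ∈ A (R p e π) (Function.update p e j)) :
    ∃ π p, 2 * (K + 1) ≤ (A π p).card := by
  classical
  by_contra hcon
  push Not at hcon
  set U : Fin (K + 1) → Finset (Equiv.Perm (Fin K × Fin (L + 1)) × (Fin (K + 1) → Fin (L + 1))) := fun e =>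
    Finset.univ.filter (fun z => ∃ j : Fin (L + 1), j.1 = (z.2 e).1 + 1 ∧ col z.1 e j ∈ A z.1 z.2) with hU
  set D : Fin (K + 1) → Finset (Equiv.Perm (Fin K × Fin (L + 1)) × (Fin (K + 1) → Fin (L + 1))) := fun e =>
    Finset.univ.filter (fun z => ∃ j : Fin (L + 1), j.1 + 1 = (z.2 e).1 ∧ col z.1 e j ∈ A z.1 z.2) with hD
  -- claim 3 and claim 2
  have c3 : ∀ z : Equiv.Perm (Fin K × Fin (L + 1)) × (Fin (K + 1) → Fin (L + 1)),
      ∑ e, (1 + (if z ∈ U e then 1 else 0) + (if z ∈ D e then 1 else 0)) ≤ (A z.1 z.2).card := by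
    rintro ⟨π, p⟩
    have h1 : ∀ e : Fin (K + 1), (1 + (if (π, p) ∈ U e then 1 else 0) + (if (π, p) ∈ D e then 1 else 0)) ≤
        (Finset.univ.filter fun j : Fin (L + 1) => col π e j ∈ A π p).card := by
      intro e
      set s := Finset.univ.filter fun j : Fin (L + 1) => col π e j ∈ A π p with hs
      have hpe : p e ∈ s := by rw [hs, Finset.mem_filter]; exact ⟨Finset.mem_univ _, hown π p e⟩
      by_cases hu : (π, p) ∈ U e <;> by_cases hd : (π, p) ∈ D e
      · rw [if_pos hu, if_pos hd]
        obtain ⟨j1, hj1, hj1'⟩ := (Finset.mem_filter.1 hu).2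
        obtain ⟨j2, hj2, hj2'⟩ := (Finset.mem_filter.1 hd).2
        simp only at hj1 hj1' hj2 hj2'
        have hsub : ({j1, p e, j2} : Finset (Fin (L + 1))) ⊆ s := by
          intro j hj
          simp only [Finset.mem_insert, Finset.mem_singleton] at hj
          rcases hj with rfl | rfl | rfl
          · rw [hs, Finset.mem_filter]; exact ⟨Finset.mem_univ _, hj1'⟩
          · exact hpe
          · rw [hs, Finset.mem_filter]; exact ⟨Finset.mem_univ _, hj2'⟩
        have hc : ({j1, p e, j2} : Finset (Fin (L + 1))).card = 3 := by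
          rw [Finset.card_eq_three]
          refine ⟨j1, p e, j2, ?_, ?_, ?_, rfl⟩ <;> intro h <;> have := congrArg Fin.val h <;> omega
        have := Finset.card_le_card hsub
        omega
      · rw [if_pos hu, if_neg hd]
        obtain ⟨j1, hj1, hj1'⟩ := (Finset.mem_filter.1 hu).2
        simp only at hj1 hj1'
        have hsub : ({j1, p e} : Finset (Fin (L + 1))) ⊆ s := by
          intro j hj
          simp only [Finset.mem_insert, Finset.mem_singleton] at hj
          rcases hj with rfl | rfl
          · rw [hs, Finset.mem_filter]; exact ⟨Finset.mem_univ _, hj1'⟩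
          · exact hpe
        have hc : ({j1, p e} : Finset (Fin (L + 1))).card = 2 := by
          rw [Finset.card_eq_two]
          refine ⟨j1, p e, ?_, rfl⟩
          intro h; have := congrArg Fin.val h; omega
        have := Finset.card_le_card hsub
        omega
      · rw [if_neg hu, if_pos hd]
        obtain ⟨j2, hj2, hj2'⟩ := (Finset.mem_filter.1 hd).2
        simp only at hj2 hj2'
        have hsub : ({p e, j2} : Finset (Fin (L + 1))) ⊆ s := by
          intro j hj
          simp only [Finset.mem_insert, Finset.mem_singleton] at hj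
          rcases hj with rfl | rfl
          · exact hpe
          · rw [hs, Finset.mem_filter]; exact ⟨Finset.mem_univ _, hj2'⟩
        have hc : ({p e, j2} : Finset (Fin (L + 1))).card = 2 := by
          rw [Finset.card_eq_two]
          refine ⟨p e, j2, ?_, rfl⟩
          intro h; have := congrArg Fin.val h; omega
        have := Finset.card_le_card hsub
        omega
      · rw [if_neg hu, if_neg hd]
        have : 0 < s.card := Finset.card_pos.2 ⟨_, hpe⟩
        omega
    refine (Finset.sum_le_sum fun e _ => h1 e).trans ?_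
    rw [← Finset.card_sigma]
    refine Finset.card_le_card_of_injOn (fun z => col π z.1 z.2) ?_ ?_
    · rintro ⟨e, j⟩ hz
      have := (Finset.mem_sigma.1 (Finset.mem_coe.1 hz)).2
      exact (Finset.mem_filter.1 this).2
    · rintro ⟨e, j⟩ _ ⟨e', j'⟩ _ h
      have := hcol π (a₁ := (e, j)) (a₂ := (e', j')) h
      rw [Prod.mk.injEq] at this
      obtain ⟨rfl, rfl⟩ := this
      rfl
  -- claim 1
  have c1 : ∀ e : Fin (K + 1), (Finset.univ.filter fun z : Equiv.Perm (Fin K × Fin (L + 1)) ×
      (Fin (K + 1) → Fin (L + 1)) => (z.2 e).1 < L).card ≤ (U e).card + (D e).card := by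
    intro e
    set up : (Fin (K + 1) → Fin (L + 1)) → Fin (L + 1) := fun p =>
      if h : (p e).1 + 1 < L + 1 then ⟨(p e).1 + 1, h⟩ else p e with hup
    have hup1 : ∀ p, (p e).1 < L → (up p).1 = (p e).1 + 1 := by
      intro p hp
      have : (p e).1 + 1 < L + 1 := by omega
      simp only [hup, dif_pos this]
    set F := Finset.univ.filter fun z : Equiv.Perm (Fin K × Fin (L + 1)) ×
      (Fin (K + 1) → Fin (L + 1)) => (z.2 e).1 < L with hF
    set φ : Equiv.Perm (Fin K × Fin (L + 1)) × (Fin (K + 1) → Fin (L + 1)) →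
      Equiv.Perm (Fin K × Fin (L + 1)) × (Fin (K + 1) → Fin (L + 1)) := fun z =>
      (R z.2 e z.1, Function.update z.2 e (up z.2)) with hφ
    have hsub : F ⊆ U e ∪ F.filter (fun z => φ z ∈ D e) := by
      rintro ⟨π, p⟩ hz
      have hp : (p e).1 < L := (Finset.mem_filter.1 hz).2
      rw [Finset.mem_union]
      rcases hnb π p e (up p) (hup1 p hp) with h | h
      · left
        rw [hU]
        exact Finset.mem_filter.2 ⟨Finset.mem_univ _, up p, hup1 p hp, h⟩
      · right
        refine Finset.mem_filter.2 ⟨hz, Finset.mem_filter.2 ⟨Finset.mem_univ _, p e, ?_, ?_⟩⟩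
        · simp only [hφ, Function.update_self]
          exact (hup1 p hp).symm
        · simp only [hφ]
          rw [hR]
          exact h
    have hinj : (F.filter (fun z => φ z ∈ D e)).card ≤ (D e).card := by
      refine Finset.card_le_card_of_injOn φ (fun z hz => (Finset.mem_filter.1 (Finset.mem_coe.1 hz)).2) ?_
      rintro ⟨π, p⟩ hz ⟨π', p'⟩ hz' h
      have hp : (p e).1 < L := (Finset.mem_filter.1 (Finset.mem_filter.1 (Finset.mem_coe.1 hz)).1).2
      have hp' : (p' e).1 < L := (Finset.mem_filter.1 (Finset.mem_filter.1 (Finset.mem_coe.1 hz')).1).2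
      simp only [hφ, Prod.mk.injEq] at h
      have hpp : p = p' := by
        funext i
        by_cases hi : i = e
        · subst hi
          have := congrFun h.2 i
          rw [Function.update_self, Function.update_self] at this
          have := congrArg Fin.val this
          rw [hup1 p hp, hup1 p' hp'] at this
          exact Fin.ext (by omega)
        · have := congrFun h.2 i
          rwa [Function.update_of_ne hi, Function.update_of_ne hi] at this
      subst hpp
      have := (R p e).injective h.1
      rw [this]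
    exact (Finset.card_le_card hsub).trans ((Finset.card_union_le _ _).trans (Nat.add_le_add_left hinj _))
  have c1' : ∀ e : Fin (K + 1), (Finset.univ.filter fun z : Equiv.Perm (Fin K × Fin (L + 1)) ×
      (Fin (K + 1) → Fin (L + 1)) => (z.2 e).1 < L).card =
      Fintype.card (Equiv.Perm (Fin K × Fin (L + 1))) * (L * (L + 1) ^ K) := by
    intro e
    have : (Finset.univ.filter fun z : Equiv.Perm (Fin K × Fin (L + 1)) ×
      (Fin (K + 1) → Fin (L + 1)) => (z.2 e).1 < L) =
      (Finset.univ : Finset (Equiv.Perm (Fin K × Fin (L + 1)))) ×ˢ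
        (Finset.univ.filter fun p : Fin (K + 1) → Fin (L + 1) => (p e).1 < L) := by
      ext z
      simp
    rw [this, Finset.card_product, card_lt_L, Finset.card_univ]
  set n := Fintype.card (Equiv.Perm (Fin K × Fin (L + 1))) with hn
  have hn0 : 0 < n := Fintype.card_pos
  have hZ : (Finset.univ : Finset (Equiv.Perm (Fin K × Fin (L + 1)) × (Fin (K + 1) → Fin (L + 1)))).card =
      n * (L + 1) ^ (K + 1) := by
    rw [Finset.card_univ, Fintype.card_prod, Fintype.card_fun, Fintype.card_fin, Fintype.card_fin]
  have hup : ∑ z : Equiv.Perm (Fin K × Fin (L + 1)) × (Fin (K + 1) → Fin (L + 1)), (A z.1 z.2).card ≤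
      (n * (L + 1) ^ (K + 1)) * (2 * K + 1) := by
    rw [← hZ]
    refine Finset.sum_le_card_nsmul _ _ _ (fun z _ => ?_) |>.trans_eq (by rw [smul_eq_mul])
    have := hcon z.1 z.2
    omega
  have hlo : (K + 1) * (n * (L + 1) ^ (K + 1) + n * (L * (L + 1) ^ K)) ≤
      ∑ z : Equiv.Perm (Fin K × Fin (L + 1)) × (Fin (K + 1) → Fin (L + 1)), (A z.1 z.2).card := by
    refine le_trans ?_ (Finset.sum_le_sum fun z _ => c3 z)
    rw [Finset.sum_comm]
    have : ∀ e : Fin (K + 1), n * (L + 1) ^ (K + 1) + n * (L * (L + 1) ^ K) ≤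
        ∑ z : Equiv.Perm (Fin K × Fin (L + 1)) × (Fin (K + 1) → Fin (L + 1)),
          (1 + (if z ∈ U e then 1 else 0) + (if z ∈ D e then 1 else 0)) := by
      intro e
      rw [Finset.sum_add_distrib, Finset.sum_add_distrib, Finset.sum_const, hZ, smul_eq_mul, mul_one,
        Finset.sum_ite_mem, Finset.sum_ite_mem, Finset.univ_inter, Finset.univ_inter, Finset.sum_const,
        Finset.sum_const, smul_eq_mul, smul_eq_mul, mul_one, mul_one]
      have := c1 e
      rw [c1' e] at this
      omega
    calc (K + 1) * (n * (L + 1) ^ (K + 1) + n * (L * (L + 1) ^ K))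
        = ∑ _e : Fin (K + 1), (n * (L + 1) ^ (K + 1) + n * (L * (L + 1) ^ K)) := by
          rw [Finset.sum_const, Finset.card_univ, Fintype.card_fin, smul_eq_mul]
      _ ≤ _ := Finset.sum_le_sum fun e _ => this e
  have hfin := hlo.trans hup
  have hpos : 0 < n * (L + 1) ^ K := Nat.mul_pos hn0 (pow_pos (Nat.succ_pos _) _)
  have e1 : (K + 1) * (n * (L + 1) ^ (K + 1) + n * (L * (L + 1) ^ K)) =
      (n * (L + 1) ^ K) * ((K + 1) * ((L + 1) + L)) := by ring
  have e2 : (n * (L + 1) ^ (K + 1)) * (2 * K + 1) = (n * (L + 1) ^ K) * ((L + 1) * (2 * K + 1)) := by ring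
  rw [e1, e2] at hfin
  have := Nat.le_of_mul_le_mul_left hfin hpos
  nlinarith

end Pool.Agent.H54Q
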