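import Pool.Agent.Lib.H54Q.Q6

set_option autoImplicit false

namespace Pool.Agent.H54Q

private theorem q9_mem {α : Type} (v : List α) : ∀ (t : List α) (b : α) (w : List α),
    w ∈ (b :: (t ++ v)) :: (upl v t ++ [v]) → ∃ s p : List α, b :: t = p ++ s ∧ w = s ++ v := by
  intro t
  induction t with
  | nil =>
    intro b w hw
    rcases List.mem_cons.1 hw with h | h
    · exact ⟨[b], [], rfl, h⟩
    · have h1 : w = v := by simpa [upl] using h
      exact ⟨[], [b], rfl, h1⟩
  | cons c t ih =>
    intro b w hw
    rcases List.mem_cons.1 hw with h | h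
    · exact ⟨b :: c :: t, [], rfl, h⟩
    · obtain ⟨s, p, h1, h2⟩ := ih c w h
      exact ⟨s, b :: p, by rw [h1]; rfl, h2⟩

private theorem q9_chain {α : Type} (v : List α) : ∀ (t : List α) (b : α),
    List.IsChain Par ((b :: (t ++ v)) :: (upl v t ++ [v])) := by
  intro t
  induction t with
  | nil =>
    intro b
    refine List.isChain_cons_cons.2 ⟨Or.inl ⟨b, rfl⟩, ?_⟩
    exact List.isChain_singleton _
  | cons c t ih =>
    intro b
    exact List.isChain_cons_cons.2 ⟨Or.inl ⟨b, rfl⟩, ih c⟩

private theorem q9_nodup {α : Type} (v : List α) : ∀ (t : List α) (b : α),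
    ((b :: (t ++ v)) :: (upl v t ++ [v])).Nodup := by
  intro t
  induction t with
  | nil =>
    intro b
    refine List.nodup_cons.2 ⟨fun h => ?_, List.nodup_singleton _⟩
    have h1 : b :: v = v := by simpa [upl] using h
    have h2 := congrArg List.length h1
    simp at h2
  | cons c t ih =>
    intro b
    refine List.nodup_cons.2 ⟨fun h => ?_, ih c⟩
    obtain ⟨s, p, h1, h2⟩ := q9_mem v t c _ h
    have h3 := congrArg List.length h1
    have h4 := congrArg List.length h2
    simp only [List.length_cons, List.length_append] at h3 h4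
    omega

private theorem q9_par {α : Type} {u v : List α} (h : Par u v) : Par v u := h.symm

/-- The repetition for the colour of the neighbour on the spine (M).

Proof.  `v' = none :: v`, `l = (b₀ :: (t ++ v)) :: (upl v t ++ v :: v' :: ((upl v' t').reverse ++ [b₁ :: (t' ++ v')]))`,
`a = f v' :: ((upl v t).map f ++ [f v])`.  Members of `upl v t` (and `b₀ :: (t ++ v)`) have a suffix `c :: v` with
`c ≠ none` (`c` the last letter of `t`, or `b₀` if `t = []`), the members of the second half have the suffix
`none :: v`. -/
theorem rep_nb {M : ℕ} (k L : ℕ) (f : List (Option (Fin M)) → ℕ) (v t t' : List (Option (Fin M)))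
    (b₀ b₁ : Option (Fin M)) (h1 : Legal k L (b₀ :: (t ++ v))) (h2 : Legal k L (b₁ :: (t' ++ none :: v)))
    (hd : ∀ b, t.getLast? = some b → b ≠ none) (hb : b₀ ≠ none) (hc : f (b₀ :: (t ++ v)) = f (none :: v))
    (hc' : f (b₁ :: (t' ++ none :: v)) = f v)
    (hr : (upl (none :: v) t').map f = ((upl v t).map f).reverse) :
    ∃ l : List (List (Option (Fin M))), l.IsChain Par ∧ l.Nodup ∧ (∀ w ∈ l, Legal k L w) ∧
      ∃ a : List ℕ, a ≠ [] ∧ l.map f = a ++ a := by
  set v' : List (Option (Fin M)) := none :: v with hv'
  set L1 : List (List (Option (Fin M))) := (b₀ :: (t ++ v)) :: (upl v t ++ [v]) with hL1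
  set L2 : List (List (Option (Fin M))) := (b₁ :: (t' ++ v')) :: (upl v' t' ++ [v']) with hL2
  have hrev : L2.reverse = v' :: ((upl v' t').reverse ++ [b₁ :: (t' ++ v')]) := by
    rw [hL2, List.reverse_cons, List.reverse_append]
    rfl
  refine ⟨L1 ++ L2.reverse, ?_, ?_, ?_, f v' :: ((upl v t).map f ++ [f v]), List.cons_ne_nil _ _, ?_⟩
  · rw [List.isChain_append]
    refine ⟨q9_chain v t b₀, ?_, ?_⟩
    · rw [List.isChain_reverse]
      exact (q9_chain v' t' b₁).imp fun _ _ h => q9_par h
    · intro x hx y hy
      have h3 : L1.getLast? = some v := by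
        rw [hL1, ← List.cons_append, List.getLast?_append]
        rfl
      have h4 : L2.reverse.head? = some v' := by
        rw [hrev]
        rfl
      rw [h3] at hx
      rw [h4] at hy
      have h5 : v = x := Option.some.inj hx
      have h6 : v' = y := Option.some.inj hy
      rw [← h5, ← h6]
      exact Or.inr ⟨none, rfl⟩
  · refine List.nodup_append.2 ⟨q9_nodup v t b₀, List.nodup_reverse.2 (q9_nodup v' t' b₁), ?_⟩
    intro x hx y hy hxy
    rw [List.mem_reverse] at hy
    obtain ⟨s, p, h3, h4⟩ := q9_mem v t b₀ x hx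
    obtain ⟨s', p', h5, h6⟩ := q9_mem v' t' b₁ y hy
    have h7 : s ++ v = (s' ++ [none]) ++ v := by
      rw [← h4, hxy, h6, hv', List.append_assoc]
      rfl
    have h8 : s = s' ++ [none] := List.append_cancel_right h7
    rw [h8, ← List.append_assoc] at h3
    have h9 : (b₀ :: t).getLast? = some none := by
      rw [h3, List.getLast?_append]
      rfl
    cases t with
    | nil => exact hb (Option.some.inj h9)
    | cons c t =>
      rw [List.getLast?_cons_cons] at h9
      exact hd none h9 rfl
  · intro w hw
    rcases List.mem_append.1 hw with h | h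
    · obtain ⟨s, p, h3, h4⟩ := q9_mem v t b₀ w h
      rw [h4]
      refine legal_tail k L p (s ++ v) ?_
      rw [← List.append_assoc, ← h3]
      exact h1
    · rw [List.mem_reverse] at h
      obtain ⟨s, p, h3, h4⟩ := q9_mem v' t' b₁ w h
      rw [h4]
      refine legal_tail k L p (s ++ v') ?_
      rw [← List.append_assoc, ← h3]
      exact h2
  · rw [hrev, hL1]
    simp only [List.map_cons, List.map_append, List.map_reverse, List.map_nil, hr, List.reverse_reverse, hc, hc',
      List.cons_append, List.append_assoc, List.nil_append]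

end Pool.Agent.H54Q
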