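import Pool.Agent.Lib.H54Q.Q8
import Pool.Agent.Lib.H54Q.Q9
import Pool.Agent.Lib.H54Q.Q10
import Pool.Agent.Lib.H54Q.Q11

set_option autoImplicit false

namespace Pool.Agent.H54Q

private theorem q13_nd {M : ℕ} (ch : Bool → List (Option (Fin M)) → (ℕ → ℕ) → Fin M) (β β' : ℕ → Bool) (p p' : ℕ → ℕ)
    (u u' : ℕ → ℕ → ℕ) : ∀ d : ℕ, (∀ c, c < d → β c = β' c) → (∀ c, c ≤ d → p c = p' c) → (∀ c, c < d → u c = u' c) →
      nd ch β p u d = nd ch β' p' u' d := by
  intro d
  induction d with
  | zero =>
    intro _ h2 _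
    show List.replicate (p 0) none = List.replicate (p' 0) none
    rw [h2 0 (le_refl _)]
  | succ d ih =>
    intro h1 h2 h3
    show List.replicate (p (d + 1)) none ++ some (ch (β d) (nd ch β p u d) (u d)) :: nd ch β p u d =
      List.replicate (p' (d + 1)) none ++ some (ch (β' d) (nd ch β' p' u' d) (u' d)) :: nd ch β' p' u' d
    rw [ih (fun c hc => h1 c (Nat.lt_succ_of_lt hc)) (fun c hc => h2 c (Nat.le_succ_of_le hc))
      (fun c hc => h3 c (Nat.lt_succ_of_lt hc)), h1 d (Nat.lt_succ_self d), h2 (d + 1) (le_refl _),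
      h3 d (Nat.lt_succ_self d)]

private theorem q13_uu {K L : ℕ} (x : Fin K × Fin (L + 1) → ℕ) (p : ℕ → ℕ) (π ρ : Equiv.Perm (Fin K × Fin (L + 1)))
    (e : ℕ) (h : ∀ t, t ∉ qq K L p e → ρ t = t) (d : ℕ) (hd : d < e) : uu x (ρ.trans π) d = uu x π d := by
  funext j
  unfold uu
  by_cases h1 : d < K ∧ j < L + 1
  · rw [dif_pos h1, dif_pos h1]
    show x (π (ρ (⟨d, h1.1⟩, ⟨j, h1.2⟩))) = x (π (⟨d, h1.1⟩, ⟨j, h1.2⟩))
    rw [h (⟨d, h1.1⟩, ⟨j, h1.2⟩) fun h2 => ?_]
    have h3 := ((mem_qq K L p e _).1 h2).1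
    exact absurd h3 (Nat.not_le.2 hd)
  · rw [dif_neg h1, dif_neg h1]

private theorem q13_col {K L : ℕ} (x : Fin K × Fin (L + 1) → ℕ) (p : ℕ → ℕ) (π ρ : Equiv.Perm (Fin K × Fin (L + 1)))
    (e : ℕ) (h : (qq K L p e).map ρ = (qq K L p e).reverse) :
    ((qq K L p e).map fun i => x ((ρ.trans π) i)) = ((qq K L p e).map fun i => x (π i)).reverse := by
  rw [← List.map_reverse, ← h, List.map_map]
  rfl

/-- Own colours and colours of spine neighbours (M).

Proof.  `v = nd e`, `nd K = t ++ v` (`path_down`).  OWN: if `f (some b :: nd K) = f v`, take `ρ` (`exists_rev` for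
`qq K L p e`), `β' = Function.update (fun _ => true) e false`, `π' = ρ.trans π` (`π' i = π (ρ i)`).  `nd` of the new
configuration at `e` is `v` again (`uu x π' d = uu x π d` for `d < e`, since `ρ` fixes the indices `(d, j)`, `d < e`:
`mem_qq`).  `path_down` for both gives `t'`; colours: `(qq.map (x ∘ π ∘ ρ)) = (qq.map (x ∘ π)).reverse`.  The last
letters are different, since their tags are `true` and `false` (`Avail`); if `e = K` then `t = []`.  `rep_own`.
NEIGHBOUR: the second configuration has `p' = Function.update p e (p e + 1)`, `π' = ρ.trans π`, `nd' e = none :: v`,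
`qq K L p' e = qq K L p e` (`qq_congr`); if both fail, `rep_nb`.  Legality by `nd_legal` (level `1` at depth `K`). -/
theorem own_nb {M : ℕ} (K L : ℕ) (f : List (Option (Fin M)) → ℕ) (tag : Fin M → Bool)
    (ch : Bool → List (Option (Fin M)) → (ℕ → ℕ) → Fin M) (x : Fin K × Fin (L + 1) → ℕ)
    (hG : ∀ (β : ℕ → Bool) (p : ℕ → ℕ), (∀ d, p d ≤ L) → ∀ (π : Equiv.Perm (Fin K × Fin (L + 1))) (d : ℕ), d < K →
      Avail L f tag ch (β d) (nd ch β p (uu x π) d) (uu x π d))
    (hNR : ¬ ∃ l : List (List (Option (Fin M))), l.IsChain Par ∧ l.Nodup ∧ (∀ w ∈ l, Legal (K + 1) L w) ∧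
      ∃ a : List ℕ, a ≠ [] ∧ l.map f = a ++ a)
    (p : ℕ → ℕ) (hp : ∀ d, p d ≤ L) (π : Equiv.Perm (Fin K × Fin (L + 1))) (e : ℕ) (he : e ≤ K) :
    (∀ b : Fin M, f (some b :: nd ch (fun _ => true) p (uu x π) K) ≠ f (nd ch (fun _ => true) p (uu x π) e)) ∧
    (∀ ρ : Equiv.Perm (Fin K × Fin (L + 1)), (qq K L p e).map ρ = (qq K L p e).reverse →
      (∀ t, t ∉ qq K L p e → ρ t = t) → p e < L →
      (∀ b : Fin M, f (some b :: nd ch (fun _ => true) p (uu x π) K) ≠
        f (none :: nd ch (fun _ => true) p (uu x π) e)) ∨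
      (∀ b : Fin M, f (some b :: nd ch (fun _ => true) (Function.update p e (p e + 1)) (uu x (ρ.trans π)) K) ≠
        f (nd ch (fun _ => true) p (uu x π) e))) := by
  have hst : ∀ (β : ℕ → Bool) (q : ℕ → ℕ), (∀ d, q d ≤ L) → ∀ (u : ℕ → ℕ → ℕ) (b : Fin M),
      Legal (K + 1) L (some b :: nd ch β q u K) := by
    intro β q hq u b
    obtain ⟨h1, h2⟩ := nd_legal K L ch β q hq u K (le_refl K)
    refine ⟨h1, ?_⟩
    rw [h2]
    show 1 ≤ K + 1 - K
    omega
  obtain ⟨t, ht1, ht2, ht3, ht4⟩ := path_down K L f tag ch (fun _ => true) p hp x π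
    (fun d hd => hG (fun _ => true) p hp π d hd) e he
  refine ⟨?_, ?_⟩
  · intro b hf
    obtain ⟨ρ, hρ1, hρ2⟩ := exists_rev (qq K L p e) (qq_nodup K L p e)
    set β' : ℕ → Bool := Function.update (fun _ => true) e false with hβ'
    have hnd : nd ch β' p (uu x (ρ.trans π)) e = nd ch (fun _ => true) p (uu x π) e := by
      apply q13_nd
      · intro c hc
        rw [hβ', Function.update_of_ne (Nat.ne_of_lt hc)]
      · intro c _
        rfl
      · intro c hc
        exact q13_uu x p π ρ e hρ2 c hc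
    have hA' : ∀ d, d < K → Avail L f tag ch (β' d) (nd ch β' p (uu x (ρ.trans π)) d) (uu x (ρ.trans π) d) :=
      fun d hd => hG β' p hp (ρ.trans π) d hd
    obtain ⟨t', ht'1, ht'2, ht'3, ht'4⟩ := path_down K L f tag ch β' p hp x (ρ.trans π) hA' e he
    rw [hnd] at ht'1 ht'2 ht'3
    apply hNR
    refine rep_own (K + 1) L f (nd ch (fun _ => true) p (uu x π) e) t t' (some b) ?_ ?_ ?_ ?_ ?_
    · rw [← ht1]
      exact hst _ p hp _ b
    · rw [← ht'1]
      exact (nd_legal K L ch β' p hp (uu x (ρ.trans π)) K (le_refl K)).1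
    · intro c c' hc hc' hcc
      rcases Nat.lt_or_ge e K with heK | heK
      · have h3 := ht3 heK
        have h4 := ht'3 heK
        rw [hc] at h3
        rw [hc'] at h4
        have h5 : some (ch true (nd ch (fun _ => true) p (uu x π) e) (uu x π e)) =
            some (ch (β' e) (nd ch (fun _ => true) p (uu x π) e) (uu x (ρ.trans π) e)) := by
          rw [← Option.some.inj h3, ← Option.some.inj h4, hcc]
        have h6 : tag (ch true (nd ch (fun _ => true) p (uu x π) e) (uu x π e)) = true :=
          (hG (fun _ => true) p hp π e heK).1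
        have h7 := (hA' e heK).1
        rw [hnd, ← Option.some.inj h5, h6, hβ', Function.update_self] at h7
        exact Bool.noConfusion h7
      · rw [ht4 (Nat.le_antisymm he heK)] at hc
        exact absurd hc (by simp)
    · rw [← ht1]
      exact hf
    · rw [ht'2, ht2, q13_col x p π ρ e hρ1]
  · intro ρ hρ1 hρ2 hpe
    by_contra hcon
    rw [not_or] at hcon
    obtain ⟨hc1, hc2⟩ := hcon
    simp only [not_forall, not_not] at hc1 hc2
    obtain ⟨b, hb⟩ := hc1
    obtain ⟨b', hb'⟩ := hc2
    set p' : ℕ → ℕ := Function.update p e (p e + 1) with hp'def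
    have hp' : ∀ d, p' d ≤ L := by
      intro d
      rcases eq_or_ne d e with rfl | hde
      · rw [hp'def, Function.update_self]
        exact hpe
      · rw [hp'def, Function.update_of_ne hde]
        exact hp d
    have hnd : nd ch (fun _ => true) p' (uu x (ρ.trans π)) e = none :: nd ch (fun _ => true) p (uu x π) e := by
      rcases e with _ | e
      · show List.replicate (p' 0) none = none :: List.replicate (p 0) none
        rw [hp'def, Function.update_self]
        rfl
      · have h1 : nd ch (fun _ => true) p' (uu x (ρ.trans π)) e = nd ch (fun _ => true) p (uu x π) e := by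
          apply q13_nd
          · intro c _
            rfl
          · intro c hc
            rw [hp'def, Function.update_of_ne (by omega)]
          · intro c hc
            exact q13_uu x p π ρ (e + 1) hρ2 c (by omega)
        show List.replicate (p' (e + 1)) none ++ some (ch true (nd ch (fun _ => true) p' (uu x (ρ.trans π)) e)
            (uu x (ρ.trans π) e)) :: nd ch (fun _ => true) p' (uu x (ρ.trans π)) e =
          none :: (List.replicate (p (e + 1)) none ++ some (ch true (nd ch (fun _ => true) p (uu x π) e)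
            (uu x π e)) :: nd ch (fun _ => true) p (uu x π) e)
        rw [h1, q13_uu x p π ρ (e + 1) hρ2 e (by omega), hp'def, Function.update_self]
        rfl
    have hqq : qq K L p' e = qq K L p e := by
      apply qq_congr
      intro d hd
      rw [hp'def, Function.update_of_ne (by omega)]
    obtain ⟨t', ht'1, ht'2, ht'3, ht'4⟩ := path_down K L f tag ch (fun _ => true) p' hp' x (ρ.trans π)
      (fun d hd => hG (fun _ => true) p' hp' (ρ.trans π) d hd) e he
    rw [hnd] at ht'1 ht'2 ht'3
    rw [hqq] at ht'2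
    apply hNR
    refine rep_nb (K + 1) L f (nd ch (fun _ => true) p (uu x π) e) t t' (some b) (some b') ?_ ?_ ?_ ?_ ?_ ?_ ?_
    · rw [← ht1]
      exact hst _ p hp _ b
    · rw [← ht'1]
      exact hst _ p' hp' _ b'
    · intro c hc hcn
      rcases Nat.lt_or_ge e K with heK | heK
      · rw [ht3 heK, hcn] at hc
        exact absurd (Option.some.inj hc) (by simp)
      · rw [ht4 (Nat.le_antisymm he heK)] at hc
        exact absurd hc (by simp)
    · simp
    · rw [← ht1]
      exact hb
    · rw [← ht'1]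
      exact hb'
    · rw [ht'2, ht2, q13_col x p π ρ e hρ1]

end Pool.Agent.H54Q
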