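import Pool.Agent.Lib.H54Q.Q7
import Pool.Agent.Lib.H54Q.Q12
import Pool.Agent.Lib.H54Q.Q13

set_option autoImplicit false

namespace Pool.Agent.H54Q

private def pp (K L : ℕ) (p : Fin (K + 1) → Fin (L + 1)) : ℕ → ℕ :=
  fun d => if h : d < K + 1 then (p ⟨d, h⟩).1 else 0

private theorem pp_val (K L : ℕ) (p : Fin (K + 1) → Fin (L + 1)) (e : Fin (K + 1)) :
    pp K L p e.1 = (p e).1 := by
  simp [pp, e.2]

private theorem pp_le (K L : ℕ) (p : Fin (K + 1) → Fin (L + 1)) (d : ℕ) : pp K L p d ≤ L := by
  unfold pp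
  split
  · exact Nat.lt_succ_iff.mp (p _).2
  · exact Nat.zero_le _

private theorem pp_update (K L : ℕ) (p : Fin (K + 1) → Fin (L + 1)) (e : Fin (K + 1)) (j : Fin (L + 1))
    (hj : j.1 = (p e).1 + 1) :
    Function.update (pp K L p) e.1 (pp K L p e.1 + 1) = pp K L (Function.update p e j) := by
  funext d
  by_cases h : d = e.1
  · subst h
    rw [Function.update_self, pp_val, pp_val, Function.update_self, hj]
  · rw [Function.update_of_ne h]
    unfold pp
    split
    · rename_i h1
      rw [Function.update_of_ne]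
      intro h2
      exact h (congrArg Fin.val h2)
    · rfl

/-- The contradiction for a given colouring (M).

Proof.  `A π p = P.filter (fun c => ∀ b, f (some b :: nd ch (fun _ => true) (pp p) (uu x π) K) ≠ c)` with
`pp p d = p d` for `d ≤ K`, else `0`; card `≤ 2 (K + 1) - 1` by `hleaf` (a subset of `2 (K + 1)` elements of `A`
would be hit; `nd_legal`: level `1`).  `col π 0 j = f (replicate j none)`, `col π (d + 1) j = x (π (d, j))`;
`f (nd e) = col π e (p e)`, `f (none :: nd e) = col π e (p e + 1)` (from `hG`, `Avail`); injective by `hX`, `hx`, `htop`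
(the colours of the top spine are different, below `N₀` and in `P`).
`R p e = ` right multiplication by the `ρ` of `exists_rev` for `qq K L (pp p) e` (chosen); `hR` because `(d, j)`, `d + 1 = e`,
is not in `qq .. e`.  `own_nb`, `count`. -/
theorem contra {M : ℕ} (K L N₀ : ℕ) (hL : K + 1 ≤ L) (X : Fin K × Fin (L + 1) → Finset ℕ)
    (hX : ∀ s t, s ≠ t → Disjoint (X s) (X t)) (hX0 : ∀ t, ∀ c ∈ X t, N₀ ≤ c) (P : Finset ℕ)
    (hXP : ∀ t, X t ⊆ P) (f : List (Option (Fin M)) → ℕ) (tag : Fin M → Bool)
    (ch : Bool → List (Option (Fin M)) → (ℕ → ℕ) → Fin M) (x : Fin K × Fin (L + 1) → ℕ) (hx : ∀ t, x t ∈ X t)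
    (hG : ∀ (β : ℕ → Bool) (p : ℕ → ℕ), (∀ d, p d ≤ L) → ∀ (π : Equiv.Perm (Fin K × Fin (L + 1))) (d : ℕ), d < K →
      Avail L f tag ch (β d) (nd ch β p (uu x π) d) (uu x π d))
    (htop : ∀ i j, i ≤ L → j ≤ L → f (List.replicate i none) < N₀ ∧ f (List.replicate i none) ∈ P ∧
      (f (List.replicate i none) = f (List.replicate j none) → i = j))
    (hleaf : ∀ v, Legal (K + 1) L v → (st (K + 1) v).1 = 1 → ∀ S : Finset ℕ, S ⊆ P → S.card = 2 * (K + 1) →
      ∃ b : Fin M, f (some b :: v) ∈ S)
    (hNR : ¬ ∃ l : List (List (Option (Fin M))), l.IsChain Par ∧ l.Nodup ∧ (∀ w ∈ l, Legal (K + 1) L w) ∧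
      ∃ a : List ℕ, a ≠ [] ∧ l.map f = a ++ a) : False := by
  classical
  let col : Equiv.Perm (Fin K × Fin (L + 1)) → Fin (K + 1) → Fin (L + 1) → ℕ := fun π e =>
    Fin.cases (motive := fun _ => Fin (L + 1) → ℕ) (fun j => f (List.replicate j.1 none))
      (fun d j => x (π (d, j))) e
  have col0 : ∀ π j, col π 0 j = f (List.replicate j.1 none) := fun π j => rfl
  have colS : ∀ π (d : Fin K) j, col π d.succ j = x (π (d, j)) := fun π d j => rfl
  let N : Equiv.Perm (Fin K × Fin (L + 1)) → (Fin (K + 1) → Fin (L + 1)) → ℕ → List (Option (Fin M)) :=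
    fun π p => nd ch (fun _ => true) (pp K L p) (uu x π)
  let A : Equiv.Perm (Fin K × Fin (L + 1)) → (Fin (K + 1) → Fin (L + 1)) → Finset ℕ :=
    fun π p => P.filter (fun c => ∀ b : Fin M, f (some b :: N π p K) ≠ c)
  have hρ : ∀ (p : Fin (K + 1) → Fin (L + 1)) (e : Fin (K + 1)), ∃ ρ : Equiv.Perm (Fin K × Fin (L + 1)),
      (qq K L (pp K L p) e.1).map ρ = (qq K L (pp K L p) e.1).reverse ∧
        ∀ t, t ∉ qq K L (pp K L p) e.1 → ρ t = t := fun p e => exists_rev _ (qq_nodup K L _ _)
  choose ρ hρ1 hρ2 using hρ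
  have huu : ∀ π (d : Fin K) (j : Fin (L + 1)), uu x π d.1 j.1 = x (π (d, j)) := by
    intro π d j
    simp [uu, d.2, Nat.lt_succ_iff.mp j.2]
  have hav : ∀ π p (d : Fin K) (j : Fin (L + 1)),
      f (List.replicate j.1 none ++ some (ch true (N π p d.1) (uu x π d.1)) :: N π p d.1) = x (π (d, j)) := by
    intro π p d j
    have h1 := (hG (fun _ => true) (pp K L p) (pp_le K L p) π d.1 d.2).2 j.1 (Nat.lt_succ_iff.mp j.2)
    rw [huu] at h1
    exact h1
  have hcolN : ∀ π p (e : Fin (K + 1)), f (N π p e.1) = col π e (p e) := by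
    intro π p e
    have hpe := pp_val K L p e
    induction e using Fin.cases with
    | zero =>
      rw [col0]
      show f (List.replicate (pp K L p 0) none) = _
      rw [← hpe]
      rfl
    | succ d =>
      rw [colS]
      have h1 := hav π p d (p d.succ)
      rw [← hpe] at h1
      exact h1
  have hcolN' : ∀ π p (e : Fin (K + 1)) (j : Fin (L + 1)), j.1 = (p e).1 + 1 →
      f (none :: N π p e.1) = col π e j := by
    intro π p e j hj
    have hpe := pp_val K L p e
    rw [← hpe] at hj
    induction e using Fin.cases with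
    | zero =>
      rw [col0, hj]
      rfl
    | succ d =>
      rw [colS]
      have h1 := hav π p d j
      rw [hj] at h1
      exact h1
  have hcolP : ∀ π (e : Fin (K + 1)) (j : Fin (L + 1)), col π e j ∈ P := by
    intro π e j
    induction e using Fin.cases with
    | zero =>
      rw [col0]
      exact (htop j.1 j.1 (Nat.lt_succ_iff.mp j.2) (Nat.lt_succ_iff.mp j.2)).2.1
    | succ d =>
      rw [colS]
      exact hXP _ (hx _)
  have hcol : ∀ π, Function.Injective fun ej : Fin (K + 1) × Fin (L + 1) => col π ej.1 ej.2 := by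
    intro π
    rintro ⟨e, j⟩ ⟨e', j'⟩ h
    simp only at h
    have hj := Nat.lt_succ_iff.mp j.2
    have hj' := Nat.lt_succ_iff.mp j'.2
    induction e using Fin.cases with
    | zero =>
      induction e' using Fin.cases with
      | zero =>
        rw [col0, col0] at h
        rw [Fin.ext ((htop j.1 j'.1 hj hj').2.2 h)]
      | succ d' =>
        rw [col0, colS] at h
        have h1 := (htop j.1 j.1 hj hj).1
        have h2 := hX0 _ _ (hx (π (d', j')))
        omega
    | succ d =>
      induction e' using Fin.cases with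
      | zero =>
        rw [col0, colS] at h
        have h1 := (htop j'.1 j'.1 hj' hj').1
        have h2 := hX0 _ _ (hx (π (d, j)))
        omega
      | succ d' =>
        rw [colS, colS] at h
        have h1 : π (d, j) = π (d', j') := by
          by_contra hne
          have h2 := Finset.disjoint_left.mp (hX _ _ hne) (hx _)
          rw [h] at h2
          exact h2 (hx _)
        have h3 := π.injective h1
        rw [Prod.mk.injEq] at h3
        rw [h3.1, h3.2]
  have hR : ∀ p e π j, col (Equiv.mulRight (ρ p e) π) e j = col π e j := by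
    intro p e π j
    have h2 := hρ2 p e
    generalize ρ p e = r at h2 ⊢
    induction e using Fin.cases with
    | zero => rfl
    | succ d =>
      rw [colS, colS]
      show x (π (r (d, j))) = _
      rw [h2]
      intro hmem
      have := ((mem_qq _ _ _ _ _).mp hmem).1
      simp at this
  have hown : ∀ π p e, col π e (p e) ∈ A π p := by
    intro π p e
    refine Finset.mem_filter.mpr ⟨hcolP _ _ _, ?_⟩
    rw [← hcolN]
    exact (own_nb K L f tag ch x hG hNR (pp K L p) (pp_le K L p) π e.1 (Nat.lt_succ_iff.mp e.2)).1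
  have hnb : ∀ π p e (j : Fin (L + 1)), j.1 = (p e).1 + 1 →
      col π e j ∈ A π p ∨ col π e (p e) ∈ A (Equiv.mulRight (ρ p e) π) (Function.update p e j) := by
    intro π p e j hj
    have h1 := (own_nb K L f tag ch x hG hNR (pp K L p) (pp_le K L p) π e.1 (Nat.lt_succ_iff.mp e.2)).2
      (ρ p e) (hρ1 p e) (hρ2 p e) (by rw [pp_val]; have := j.2; omega)
    rcases h1 with h1 | h1
    · left
      refine Finset.mem_filter.mpr ⟨hcolP _ _ _, ?_⟩
      rw [← hcolN' π p e j hj]
      exact h1
    · right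
      refine Finset.mem_filter.mpr ⟨hcolP _ _ _, ?_⟩
      rw [← hcolN]
      rw [pp_update K L p e j hj] at h1
      exact h1
  obtain ⟨π, p, hcard⟩ := count K L hL col A (fun p e => Equiv.mulRight (ρ p e)) hcol hR hown hnb
  obtain ⟨S, hS, hSc⟩ := Finset.exists_subset_card_eq hcard
  obtain ⟨hl1, hl2⟩ := nd_legal K L ch (fun _ => true) (pp K L p) (pp_le K L p) (uu x π) K le_rfl
  obtain ⟨b, hb⟩ := hleaf (N π p K) hl1 (by show (st (K + 1) (nd _ _ _ _ _)).1 = 1; rw [hl2]; simp) S
    (hS.trans (Finset.filter_subset _ _)) hSc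
  exact (Finset.mem_filter.mp (hS hb)).2 b rfl

end Pool.Agent.H54Q
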