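import Pool.Agent.Lib.H54Q.Q1

set_option autoImplicit false

namespace Pool.Agent.H54Q

private theorem cle {a b : ℕ} {l l' : List ℕ} : a :: l ≤ b :: l' ↔ a < b ∨ (a = b ∧ l ≤ l') := by
  rw [← not_lt, show (l ≤ l') = (¬ l' < l) from propext not_lt.symm]
  have h : (b :: l' < a :: l) ↔ b < a ∨ (b = a ∧ l' < l) := List.cons_lt_cons_iff
  rw [h]
  constructor
  · intro h1
    rcases Nat.lt_trichotomy a b with h2 | h2 | h2
    · exact Or.inl h2
    · exact Or.inr ⟨h2, fun h3 => h1 (Or.inr ⟨h2.symm, h3⟩)⟩
    · exact absurd (Or.inl h2) h1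
  · rintro (h1 | ⟨h1, h2⟩) (h3 | ⟨h3, h4⟩)
    · omega
    · omega
    · omega
    · exact h2 h4

private theorem nle {l : List ℕ} : [] ≤ l := by
  rw [← not_lt]
  exact List.not_lt_nil l

private theorem len {a : ℕ} {l : List ℕ} : ¬ a :: l ≤ [] := by
  rw [not_le]
  exact List.nil_lt_cons a l

private theorem core (m : ℕ) : ∀ l l' : List ℕ, l ≤ l' → l' ≤ l ++ [m] →
    (l' = l ∨ (∃ c < m, ∃ t, l' = l ++ c :: t) ∨ l' = l ++ [m])
  | [], [], _, h => Or.inl rfl
  | [], c :: t, _, h => by
    rw [List.nil_append, cle] at h
    rcases h with h | ⟨h, h2⟩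
    · exact Or.inr (Or.inl ⟨c, h, t, rfl⟩)
    · have : t = [] := by
        cases t with
        | nil => rfl
        | cons x t => exact absurd h2 len
      right; right
      rw [h, this]
      rfl
  | a :: l, [], h, _ => absurd h len
  | a :: l, b :: l', h1, h2 => by
    rw [List.cons_append, cle] at h2
    rw [cle] at h1
    have hab : a = b := by
      rcases h1 with h1 | h1
      · rcases h2 with h2 | h2
        · omega
        · omega
      · exact h1.1
    subst hab
    have h3 : l ≤ l' := by
      rcases h1 with h1 | h1
      · omega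
      · exact h1.2
    have h4 : l' ≤ l ++ [m] := by
      rcases h2 with h2 | h2
      · omega
      · exact h2.2
    rcases core m l l' h3 h4 with h5 | ⟨c, hc, t, h5⟩ | h5
    · exact Or.inl (by rw [h5])
    · exact Or.inr (Or.inl ⟨c, hc, t, by rw [h5]; rfl⟩)
    · exact Or.inr (Or.inr (by rw [h5]; rfl))

private theorem le_app : ∀ (l t : List ℕ), l ≤ l ++ t
  | [], t => nle
  | a :: l, t => by
    rw [List.cons_append, cle]
    exact Or.inr ⟨rfl, le_app l t⟩

private theorem app_le {l t t' : List ℕ} (h : t ≤ t') : l ++ t ≤ l ++ t' := by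
  induction l with
  | nil => exact h
  | cons a l ih =>
    rw [List.cons_append, List.cons_append, cle]
    exact Or.inr ⟨rfl, ih⟩

private def dg {M : ℕ} : Option (Fin M) → ℕ
  | some b => b.1
  | none => M

private theorem dg_inj {M : ℕ} : Function.Injective (dg (M := M)) := by
  intro a b h
  cases a with
  | none =>
    cases b with
    | none => rfl
    | some b =>
      have : M = b.1 := h
      have := b.2
      omega
  | some a =>
    cases b with
    | none =>
      have : a.1 = M := h
      have := a.2
      omega
    | some b =>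
      have : a.1 = b.1 := h
      rw [Fin.ext this]

private def key {M : ℕ} (w : List (Option (Fin M))) : List ℕ := (w.map dg).reverse

private theorem key_inj {M : ℕ} : Function.Injective (key (M := M)) := by
  intro a b h
  exact (List.map_injective_iff.2 dg_inj) (List.reverse_injective h)

private def Mem' {M : ℕ} (v w : List (Option (Fin M))) : Prop :=
  w = v ∨ (∃ t b, w = t ++ some b :: v) ∨ w = none :: v

private theorem mem_lo {M : ℕ} {v w : List (Option (Fin M))} (h : Mem' v w) : key v ≤ key w := by
  rcases h with h | ⟨t, b, h⟩ | h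
  · rw [h]
  · rw [h]
    unfold key
    rw [List.map_append, List.map_cons, List.reverse_append, List.reverse_cons, List.append_assoc]
    exact le_app _ _
  · rw [h]
    unfold key
    rw [List.map_cons, List.reverse_cons]
    exact le_app _ _

private theorem mem_hi {M : ℕ} {v w : List (Option (Fin M))} (h : Mem' v w) : key w ≤ key v ++ [M] := by
  rcases h with h | ⟨t, b, h⟩ | h
  · rw [h]
    exact le_app _ _
  · rw [h]
    unfold key
    rw [List.map_append, List.map_cons, List.reverse_append, List.reverse_cons, List.append_assoc]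
    apply app_le
    rw [List.singleton_append, cle]
    exact Or.inl b.2
  · rw [h]
    unfold key
    rw [List.map_cons, List.reverse_cons]
    exact le_refl _

private theorem mem_of {M : ℕ} {v w : List (Option (Fin M))} (h1 : key v ≤ key w) (h2 : key w ≤ key v ++ [M]) :
    Mem' v w := by
  have hmi : Function.Injective (List.map (dg (M := M))) := List.map_injective_iff.2 dg_inj
  rcases core M _ _ h1 h2 with h | ⟨c, hc, t, h⟩ | h
  · exact Or.inl (key_inj h)
  · right; left
    have h3 : w.map dg = (t.reverse ++ [c]) ++ v.map dg := by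
      have h4 := congrArg List.reverse h
      unfold key at h4
      rw [List.reverse_reverse, List.reverse_append, List.reverse_cons, List.reverse_reverse] at h4
      exact h4
    obtain ⟨w1, w2, hw, hw1, hw2⟩ := List.map_eq_append_iff.1 h3
    obtain ⟨w3, w4, hw3, hw4, hw5⟩ := List.map_eq_append_iff.1 hw1
    obtain ⟨x, w6, hw6, hx, hw7⟩ := List.map_eq_cons_iff.1 hw5
    have e1 : w6 = [] := List.map_eq_nil_iff.1 hw7
    have e2 : w2 = v := hmi hw2
    cases x with
    | none =>
      have : M = c := hx
      omega
    | some b =>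
      refine ⟨w3, b, ?_⟩
      rw [hw, hw3, hw6, e1, e2, List.append_assoc]
      rfl
  · right; right
    have h3 : w.map dg = M :: v.map dg := by
      have h4 := congrArg List.reverse h
      unfold key at h4
      rw [List.reverse_reverse, List.reverse_append, List.reverse_reverse] at h4
      exact h4
    obtain ⟨x, w2, hw, hx, hw2⟩ := List.map_eq_cons_iff.1 h3
    have e2 : w2 = v := hmi hw2
    cases x with
    | none => rw [hw, e2]
    | some b =>
      have : b.1 = M := hx
      have := b.2
      omega

private def anc {M : ℕ} : List (Option (Fin M)) → List (List (Option (Fin M)))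
  | [] => []
  | none :: w => anc w
  | some _ :: w => w :: anc w

private theorem mem_anc {M : ℕ} (v : List (Option (Fin M))) (b : Fin M) :
    ∀ t : List (Option (Fin M)), v ∈ anc (t ++ some b :: v)
  | [] => by
    simp [anc]
  | none :: t => by
    have := mem_anc v b t
    simpa [anc] using this
  | some c :: t => by
    have := mem_anc v b t
    rw [List.cons_append]
    unfold anc
    exact List.mem_cons_of_mem _ this

private theorem len_anc {M : ℕ} (k L : ℕ) : ∀ w : List (Option (Fin M)), Legal k L w → (anc w).length + (st k w).1 = k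
  | [], _ => by simp [anc, st]
  | none :: w, h => by
    have := len_anc k L w h.1
    simpa [anc, st] using this
  | some _ :: w, h => by
    have h1 := len_anc k L w h.1
    have h2 := h.2
    simp only [anc, st, List.length_cons]
    omega

private def bl {M : ℕ} (w : List (Option (Fin M))) : List (List (Option (Fin M))) :=
  match w with
  | [] => [[]]
  | x :: u => (x :: u) :: u :: anc u

private theorem mem_bl {M : ℕ} {v w : List (Option (Fin M))} (h : Mem' v w) : v ∈ bl w := by
  rcases h with h | ⟨t, b, h⟩ | h
  · rw [h]
    cases v with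
    | nil => simp [bl]
    | cons x u => simp [bl]
  · cases t with
    | nil =>
      rw [h]
      simp [bl]
    | cons x t =>
      rw [h, List.cons_append]
      unfold bl
      exact List.mem_cons_of_mem _ (List.mem_cons_of_mem _ (mem_anc v b t))
  · rw [h]
    simp [bl]

private theorem len_bl {M : ℕ} (k L : ℕ) {w : List (Option (Fin M))} (h : Legal k L w) : (bl w).length ≤ k + 1 := by
  cases w with
  | nil => simp [bl]
  | cons x u =>
    have h1 : Legal k L u ∧ 1 ≤ (st k u).1 := by
      cases x with
      | none => exact ⟨h.1, h.2.1⟩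
      | some b => exact ⟨h.1, h.2⟩
    have h2 := len_anc k L u h1.1
    have h3 := h1.2
    simp only [bl, List.length_cons]
    omega

/-- The path-decomposition of width `k` (M-L).

Proof.  Digits: `some b ↦ b + 1`, `none ↦ M + 1`, base `m = M + 2`, `N = (k + 1) * (L + 1) + 1` (longer than every
legal word).  `time w = Σ digit_i * m ^ (N - i)` where `i = 1, 2, ...` numbers the letters from the LAST one of the
list (the top): recursively `time [] = 0`, `time (b :: w) = time w + digit b * m ^ (N - w.length - 1)`.  This is
the depth first order (a prefix, i.e. list suffix, comes first; the branch `none :: w` after all `some b :: w`).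
`u ∈ B n` iff `time u ≤ n ∧ n ≤ time (none :: u)` (use this formula also when `none :: u` is not legal).
All descendants `t ++ some b :: u` have their time between; `some b :: u` and `u` are both in the bag
`time (some b :: u)`; `none :: u` and `u` are both in the bag `time (none :: u)`; the bags with `u` are an interval.
Size: for given `n` the members of `B n` have pairwise comparable words (one is a suffix of the other, since the
intervals `[time u, time u + m ^ (N - u.length))` of incomparable words are disjoint and `time (none :: u) <` the right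
end), and if `u` is a proper suffix of `w`, both in the bag, then the letter of `w` after `u` is `some _`, unless
`w = none :: u` and `n = time w`; in the first case the level of `w` is smaller than the level of `u`. So the members
of level `l` are at most one for each `l ≤ k`, except that once there may be two, `w = none :: u` with `n = time w`, and
then `w` is the deepest member (`n = time w`, descendants have larger time) and its level is `≥ 1`, so level `0` is
missing. -/
theorem pathwidth (k L M : ℕ) : ∃ B : ℕ → Finset (VS k L M), (∀ i, (B i).card ≤ k + 1) ∧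
    (∀ v : VS k L M, ∃ i, v ∈ B i) ∧
    (∀ u v : VS k L M, (GS k L M).Adj u v → ∃ i, u ∈ B i ∧ v ∈ B i) ∧
    (∀ (v : VS k L M) (i j m : ℕ), i ≤ j → j ≤ m → v ∈ B i → v ∈ B m → v ∈ B j) := by
  classical
  have hfin := finite k L M
  have := Fintype.ofFinite (VS k L M)
  set S : Finset (List ℕ) := Finset.univ.image (fun v : VS k L M => key v.1) with hS
  set e := S.orderIsoOfFin rfl with he
  have hpre : ∀ i : Fin S.card, ∃ w : VS k L M, key w.1 = (e i : List ℕ) := by
    intro i
    obtain ⟨w, -, hw⟩ := Finset.mem_image.1 (e i).2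
    exact ⟨w, hw⟩
  have hidx : ∀ w : VS k L M, ∃ i : Fin S.card, key w.1 = (e i : List ℕ) := by
    intro w
    have hw : key w.1 ∈ S := Finset.mem_image.2 ⟨w, Finset.mem_univ _, rfl⟩
    refine ⟨e.symm ⟨key w.1, hw⟩, ?_⟩
    rw [OrderIso.apply_symm_apply]
  let B : ℕ → Finset (VS k L M) := fun n =>
    if h : n < S.card then Finset.univ.filter (fun v => ∃ w : VS k L M, key w.1 = (e ⟨n, h⟩ : List ℕ) ∧ Mem' v.1 w.1)
    else ∅
  have hB : ∀ (n : ℕ) (v : VS k L M), v ∈ B n ↔ ∃ h : n < S.card, ∃ w : VS k L M,
      key w.1 = (e ⟨n, h⟩ : List ℕ) ∧ Mem' v.1 w.1 := by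
    intro n v
    by_cases h : n < S.card
    · simp only [B, dif_pos h, Finset.mem_filter, Finset.mem_univ, true_and]
      exact ⟨fun h1 => ⟨h, h1⟩, fun ⟨_, h1⟩ => h1⟩
    · simp only [B, dif_neg h, Finset.notMem_empty, false_iff]
      exact fun ⟨h1, _⟩ => h h1
  have hself : ∀ w : VS k L M, ∃ i : ℕ, ∀ v : VS k L M, Mem' v.1 w.1 → v ∈ B i := by
    intro w
    obtain ⟨i, hi⟩ := hidx w
    exact ⟨i.1, fun v hv => (hB i.1 v).2 ⟨i.2, w, hi, hv⟩⟩
  refine ⟨B, ?_, ?_, ?_, ?_⟩
  · intro i
    by_cases h : i < S.card
    · obtain ⟨w0, hw0⟩ := hpre ⟨i, h⟩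
      have h1 : (B i).image (fun v : VS k L M => v.1) ⊆ (bl w0.1).toFinset := by
        intro x hx
        obtain ⟨v, hv, rfl⟩ := Finset.mem_image.1 hx
        obtain ⟨_, w, hw, hm⟩ := (hB i v).1 hv
        have : w.1 = w0.1 := key_inj (hw.trans hw0.symm)
        rw [List.mem_toFinset, ← this]
        exact mem_bl hm
      have h2 := Finset.card_le_card h1
      rw [Finset.card_image_of_injective _ Subtype.val_injective] at h2
      exact h2.trans ((List.toFinset_card_le _).trans (len_bl k L w0.2))
    · have : B i = ∅ := by simp only [B, dif_neg h]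
      rw [this]
      simp
  · intro v
    obtain ⟨i, hi⟩ := hself v
    exact ⟨i, hi v (Or.inl rfl)⟩
  · intro u v huv
    have key' : ∀ a b : VS k L M, (∃ x, a.1 = x :: b.1) → ∃ i, a ∈ B i ∧ b ∈ B i := by
      rintro a b ⟨x, hx⟩
      obtain ⟨i, hi⟩ := hself a
      refine ⟨i, hi a (Or.inl rfl), hi b ?_⟩
      cases x with
      | none => exact Or.inr (Or.inr hx)
      | some c => exact Or.inr (Or.inl ⟨[], c, hx⟩)
    rcases huv with h | h
    · exact key' u v h
    · obtain ⟨i, h1, h2⟩ := key' v u h
      exact ⟨i, h2, h1⟩
  · intro v i j m hij hjm hi hm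
    obtain ⟨h1, w1, hw1, hm1⟩ := (hB i v).1 hi
    obtain ⟨h3, w3, hw3, hm3⟩ := (hB m v).1 hm
    have h2 : j < S.card := lt_of_le_of_lt hjm h3
    obtain ⟨w2, hw2⟩ := hpre ⟨j, h2⟩
    refine (hB j v).2 ⟨h2, w2, hw2, mem_of ?_ ?_⟩
    · refine (mem_lo hm1).trans ?_
      rw [hw1, hw2]
      exact e.monotone (show (⟨i, h1⟩ : Fin S.card) ≤ ⟨j, h2⟩ from hij)
    · refine le_trans ?_ (mem_hi hm3)
      rw [hw2, hw3]
      exact e.monotone (show (⟨j, h2⟩ : Fin S.card) ≤ ⟨m, h3⟩ from hjm)

end Pool.Agent.H54Q
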