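import Pool.Agent.Lib.H54LB.T6
import Pool.Agent.Lib.H54Q.Q2
import Pool.Agent.Lib.H54Q.Q14

set_option autoImplicit false

namespace Pool.Agent.H54Q

/-- the list of the vertex at distance `j` above (towards the leaves along the spine) -/
private def LL {M : ℕ} {σ : Type} (ℓ L : ℕ) (φ : Fin M → Fin (L + 1) → σ) (ψ : σ → Finset ℕ) (S₀ : Finset ℕ) :
    List (Option (Fin M)) → ℕ → Finset ℕ
  | [], j => Finset.Ico (j * ℓ) (j * ℓ + ℓ)
  | none :: w, j => LL ℓ L φ ψ S₀ w (j + 1)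
  | some b :: _, j => if h : j < L + 1 then ψ (φ b ⟨j, h⟩) else S₀

private theorem LL_card {M : ℕ} {σ : Type} {ℓ L : ℕ} {φ : Fin M → Fin (L + 1) → σ} {ψ : σ → Finset ℕ}
    {S₀ : Finset ℕ} (hψ : ∀ s, (ψ s).card = ℓ) (h0 : S₀.card = ℓ) (w : List (Option (Fin M))) :
    ∀ j, (LL ℓ L φ ψ S₀ w j).card = ℓ := by
  induction w with
  | nil =>
    intro j
    simp [LL]
  | cons b w ih =>
    intro j
    rcases b with _ | b
    · exact ih (j + 1)
    · show (if h : j < L + 1 then ψ (φ b ⟨j, h⟩) else S₀).card = ℓ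
      split_ifs
      · exact hψ _
      · exact h0

private theorem LL_rep {M : ℕ} {σ : Type} {ℓ L : ℕ} {φ : Fin M → Fin (L + 1) → σ} {ψ : σ → Finset ℕ}
    {S₀ : Finset ℕ} (w : List (Option (Fin M))) (j : ℕ) :
    ∀ i, LL ℓ L φ ψ S₀ (List.replicate j none ++ w) i = LL ℓ L φ ψ S₀ w (i + j) := by
  induction j with
  | zero => intro i; rfl
  | succ j ih =>
    intro i
    rw [List.replicate_succ, List.cons_append]
    show LL ℓ L φ ψ S₀ (List.replicate j none ++ w) (i + 1) = _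
    rw [ih]
    congr 1
    omega

/-- For every `k` there are a finite tree with a path-decomposition of width `k` and lists of `2 k`
colours such that every colouring from the lists is repetitive on some path (M-L). -/
theorem lower2 (k : ℕ) : ∃ (V : Type) (_ : Fintype V) (G : SimpleGraph V), G.IsTree ∧
    (∃ B : ℕ → Finset V, (∀ i, (B i).card ≤ k + 1) ∧ (∀ v : V, ∃ i, v ∈ B i) ∧
      (∀ u v : V, G.Adj u v → ∃ i, u ∈ B i ∧ v ∈ B i) ∧
      (∀ (v : V) (i j m : ℕ), i ≤ j → j ≤ m → v ∈ B i → v ∈ B m → v ∈ B j)) ∧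
    ∃ L : V → Finset ℕ, (∀ v, (L v).card = 2 * k) ∧ ∀ f : V → ℕ, (∀ v, f v ∈ L v) →
      ∃ (u w : V) (p : G.Walk u w) (k : ℕ), p.IsPath ∧ 1 ≤ k ∧ p.length + 1 = 2 * k ∧
        ∀ i : ℕ, i < k → f (p.getVert i) = f (p.getVert (i + k)) := by
  classical
  rcases k with _ | K
  · have := finite 0 0 0
    refine ⟨VS 0 0 0, Fintype.ofFinite _, GS 0 0 0, isTree 0 0 0, pathwidth 0 0 0, fun _ => ∅, ?_, ?_⟩
    · intro v
      simp
    · intro f hf
      exact absurd (hf ⟨[], trivial⟩) (by simp)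
  obtain ⟨X, hXc, hXd, hX0, hgen⟩ := generic_conf K (K + 1) (2 * (K + 1)) ((K + 1 + 1) * (2 * (K + 1))) (by omega)
  let P : Finset ℕ := Finset.range ((K + 1 + 1) * (2 * (K + 1))) ∪ Finset.univ.biUnion X
  have hXP : ∀ t, X t ⊆ P := fun t c hc =>
    Finset.mem_union_right _ (Finset.mem_biUnion.2 ⟨t, Finset.mem_univ _, hc⟩)
  let σ : Type := {S : Finset ℕ // S ∈ P.powersetCard (2 * (K + 1))}
  let β : Type := Bool × (Fin (K + 1 + 1) → σ)
  have hσ : Finite σ := by
    show Finite {S : Finset ℕ // S ∈ P.powersetCard (2 * (K + 1))}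
    infer_instance
  have hβ : Finite β := by
    show Finite (Bool × (Fin (K + 1 + 1) → σ))
    infer_instance
  obtain ⟨M, ⟨e⟩⟩ : ∃ M, Nonempty (Fin M ≃ β) := by
    obtain ⟨M, ⟨e⟩⟩ := Finite.exists_equiv_fin β
    exact ⟨M, ⟨e.symm⟩⟩
  have hr : Finset.range (2 * (K + 1)) ∈ P.powersetCard (2 * (K + 1)) := by
    rw [Finset.mem_powersetCard]
    refine ⟨?_, Finset.card_range _⟩
    intro i hi
    refine Finset.mem_union_left _ ?_
    rw [Finset.mem_range] at hi ⊢
    nlinarith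
  let S₀ : σ := ⟨_, hr⟩
  let Λ : List (Option (Fin M)) → ℕ → Finset ℕ :=
    LL (2 * (K + 1)) (K + 1) (fun b => (e b).2) (fun s : σ => s.1) S₀.1
  have hΛc : ∀ w j, (Λ w j).card = 2 * (K + 1) :=
    LL_card (fun s => (Finset.mem_powersetCard.1 s.2).2) (Finset.mem_powersetCard.1 S₀.2).2
  have := finite (K + 1) (K + 1) M
  refine ⟨VS (K + 1) (K + 1) M, Fintype.ofFinite _, GS (K + 1) (K + 1) M, isTree (K + 1) (K + 1) M,
    pathwidth (K + 1) (K + 1) M, fun v => Λ v.1 0, fun v => hΛc v.1 0, ?_⟩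
  intro f hf
  let g : List (Option (Fin M)) → ℕ := fun w => if h : Legal (K + 1) (K + 1) w then f ⟨w, h⟩ else 0
  have hg : ∀ v : VS (K + 1) (K + 1) M, g v.1 = f v := by
    intro v
    show (if h : Legal (K + 1) (K + 1) v.1 then f ⟨v.1, h⟩ else 0) = f v
    rw [dif_pos v.2]
  have hgΛ : ∀ w : List (Option (Fin M)), Legal (K + 1) (K + 1) w → g w ∈ Λ w 0 := by
    intro w hw
    rw [show g w = f ⟨w, hw⟩ from hg ⟨w, hw⟩]
    exact hf ⟨w, hw⟩
  have hΛs : ∀ (b : Fin M) (v : List (Option (Fin M))) (j : ℕ) (hj : j < K + 1 + 1),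
      Λ (List.replicate j none ++ some b :: v) 0 = ((e b).2 ⟨j, hj⟩).1 := by
    intro b v j hj
    show LL _ _ _ _ _ _ _ = _
    rw [LL_rep, Nat.zero_add]
    show (if h : j < K + 1 + 1 then ((e b).2 ⟨j, h⟩).1 else S₀.1) = _
    rw [dif_pos hj]
  let tag : Fin M → Bool := fun b => (e b).1
  let b₀ : Fin M := e.symm (true, fun _ => S₀)
  let ch : Bool → List (Option (Fin M)) → (ℕ → ℕ) → Fin M := fun β v y =>
    if h : ∃ b, tag b = β ∧ ∀ j, j ≤ K + 1 → g (List.replicate j none ++ some b :: v) = y j then h.choose else b₀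
  obtain ⟨x, hx, hG⟩ := hgen M g tag ch (by
      intro β v y h
      unfold Avail
      have h1 : ch β v y = h.choose := dif_pos h
      rw [h1]
      exact h.choose_spec) (by
      intro β v hv h2 a _ Λ' hΛ'
      have hm : ∀ j, Λ' j ∈ P.powersetCard (2 * (K + 1)) := fun j =>
        Finset.mem_powersetCard.2 ⟨(hΛ' j).1.trans (hXP _), (hΛ' j).2⟩
      refine ⟨e.symm (β, fun j => ⟨Λ' j, hm j⟩), ?_, fun j => ?_⟩
      · show (e (e.symm (β, fun j => ⟨Λ' j, hm j⟩))).1 = β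
        rw [Equiv.apply_symm_apply]
      · have h3 := hgΛ _ (spine_legal (K + 1) (K + 1) v hv h2 (e.symm (β, fun j => ⟨Λ' j, hm j⟩)) j.1 (by omega))
        rw [hΛs _ _ _ j.2, Equiv.apply_symm_apply] at h3
        exact h3)
  by_contra hno
  refine contra K (K + 1) ((K + 1 + 1) * (2 * (K + 1))) (le_refl _) X hXd hX0 P hXP g tag ch x hx hG ?_ ?_ ?_
  · -- the top spine
    have hval : ∀ i, i ≤ K + 1 → g (List.replicate i none) ∈
        Finset.Ico (i * (2 * (K + 1))) (i * (2 * (K + 1)) + 2 * (K + 1)) := by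
      intro i hi
      have h1 := hgΛ _ (top_legal (M := M) (K + 1) (K + 1) (by omega) i hi)
      have h2 : Λ (List.replicate i none) 0 = Finset.Ico (i * (2 * (K + 1))) (i * (2 * (K + 1)) + 2 * (K + 1)) := by
        have h3 := LL_rep (ℓ := 2 * (K + 1)) (φ := fun b => (e b).2) (ψ := fun s : σ => s.1) (S₀ := S₀.1)
          ([] : List (Option (Fin M))) i 0
        rw [List.append_nil, Nat.zero_add] at h3
        exact h3
      rw [h2] at h1
      exact h1
    intro i j hi hj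
    have h1 := Finset.mem_Ico.1 (hval i hi)
    have h2 := Finset.mem_Ico.1 (hval j hj)
    have h3 : g (List.replicate i none) < (K + 1 + 1) * (2 * (K + 1)) := by nlinarith
    refine ⟨h3, Finset.mem_union_left _ (Finset.mem_range.2 h3), fun h => ?_⟩
    by_contra hne
    rcases Nat.lt_or_gt_of_ne hne with h4 | h4
    · nlinarith
    · nlinarith
  · intro v hv h1 S hSP hSc
    have hm : S ∈ P.powersetCard (2 * (K + 1)) := Finset.mem_powersetCard.2 ⟨hSP, hSc⟩
    refine ⟨e.symm (true, fun _ => ⟨S, hm⟩), ?_⟩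
    have hl : Legal (K + 1) (K + 1) (some (e.symm (true, fun _ => ⟨S, hm⟩)) :: v) := ⟨hv, by rw [h1]⟩
    have h3 := hgΛ _ hl
    have h4 := hΛs (e.symm (true, fun _ => ⟨S, hm⟩)) v 0 (by omega)
    rw [List.replicate_zero, List.nil_append] at h4
    rw [h4, Equiv.apply_symm_apply] at h3
    exact h3
  · rintro ⟨l, hl1, hl2, hl3, a, ha, hl4⟩
    apply hno
    obtain ⟨l', hl'⟩ : ∃ l' : List (VS (K + 1) (K + 1) M), l'.map Subtype.val = l := by
      refine ⟨l.pmap (fun w h => ⟨w, h⟩) hl3, ?_⟩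
      rw [List.map_pmap]
      simp
    subst hl'
    refine H54LB.not_nonrep (GS (K + 1) (K + 1) M) f l' ?_ (List.Nodup.of_map _ hl2) a ha ?_
    · rw [List.isChain_map] at hl1
      exact hl1
    · rw [← hl4, List.map_map]
      refine List.map_congr_left ?_
      intro v _
      exact (hg v).symm

end Pool.Agent.H54Q
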