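import Pool.Agent.Lib.H54Q.Def

set_option autoImplicit false

namespace Pool.Agent.H54Q

open Finset in
private theorem bad_card {T : Type} [Fintype T] [DecidableEq T] (X : T → Finset ℕ) (q : ℕ) (j : T)
    (Φ : (T → ℕ) → Finset ℕ) (hq : ∀ x, (Φ x).card ≤ q) (hind : ∀ x y, Φ (Function.update x j y) = Φ x) :
    (X j).card * ((Fintype.piFinset X).filter fun x => x j ∈ Φ x).card ≤ q * ∏ t, (X t).card := by
  classical
  have h1 : (((Fintype.piFinset X).filter fun x => x j ∈ Φ x) ×ˢ (X j)).card ≤
      ((Fintype.piFinset X).sigma fun z => Φ z).card := by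
    refine Finset.card_le_card_of_injOn
      (fun p => (⟨Function.update p.1 j p.2, p.1 j⟩ : Σ _ : T → ℕ, ℕ)) ?_ ?_
    · intro p hp
      rw [Finset.mem_coe, Finset.mem_product, Finset.mem_filter, Fintype.mem_piFinset] at hp
      rw [Finset.mem_coe, Finset.mem_sigma, Fintype.mem_piFinset]
      refine ⟨?_, ?_⟩
      · intro t
        show Function.update p.1 j p.2 t ∈ X t
        by_cases ht : t = j
        · rw [ht, Function.update_self]
          exact hp.2
        · rw [Function.update_of_ne ht]
          exact hp.1.1 t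
      · show p.1 j ∈ Φ (Function.update p.1 j p.2)
        rw [hind]
        exact hp.1.2
    · rintro ⟨x, y⟩ _ ⟨x', y'⟩ _ h
      have h2 : Function.update x j y = Function.update x' j y' := congrArg Sigma.fst h
      have h3 : x j = x' j := by
        have h4 := congrArg (fun s : (Σ _ : T → ℕ, ℕ) => s.2) h
        exact h4
      have h5 : y = y' := by
        have := congrFun h2 j
        rwa [Function.update_self, Function.update_self] at this
      have h6 : x = x' := by
        funext i
        by_cases hi : i = j
        · rw [hi]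
          exact h3
        · have := congrFun h2 i
          rwa [Function.update_of_ne hi, Function.update_of_ne hi] at this
      rw [h5, h6]
  rw [Finset.card_product, Finset.card_sigma] at h1
  have h2 : ∑ z ∈ Fintype.piFinset X, (Φ z).card ≤ (∏ t, (X t).card) * q := by
    refine (Finset.sum_le_card_nsmul _ _ q fun z _ => hq z).trans ?_
    rw [Fintype.card_piFinset, smul_eq_mul]
  calc (X j).card * ((Fintype.piFinset X).filter fun x => x j ∈ Φ x).card
      = ((Fintype.piFinset X).filter fun x => x j ∈ Φ x).card * (X j).card := mul_comm _ _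
    _ ≤ (∏ t, (X t).card) * q := h1.trans h2
    _ = _ := mul_comm _ _

/-- Union bound with different palettes (S-M).  Each condition `i` forbids at most `q (j i)` values for the
coordinate `j i`, depending on the other coordinates.

Proof.  Compare `H54LB/T3.lean`.  Among the `x ∈ ∏ X t` (`Fintype.piFinset X`) those with `x (j i) ∈ Φ i x` are at most
`q (j i) * ∏_{t ≠ j i} (X t).card`, so times `Fintype.card ι` strictly less than `∏ (X t).card`. -/
theorem exists_good {ι T : Type} [Fintype ι] [Fintype T] [DecidableEq T] (X : T → Finset ℕ) (q : T → ℕ)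
    (hX : ∀ t, Fintype.card ι * q t < (X t).card) (j : ι → T) (Φ : ι → (T → ℕ) → Finset ℕ)
    (hq : ∀ i x, (Φ i x).card ≤ q (j i)) (hind : ∀ i x y, Φ i (Function.update x (j i) y) = Φ i x) :
    ∃ x : T → ℕ, (∀ t, x t ∈ X t) ∧ ∀ i, x (j i) ∉ Φ i x := by
  classical
  by_contra hcon
  push Not at hcon
  set P : ℕ := ∏ t, (X t).card with hP
  have hPpos : 0 < P := Finset.prod_pos fun t _ => lt_of_le_of_lt (Nat.zero_le _) (hX t)
  set B : ι → Finset (T → ℕ) := fun i => (Fintype.piFinset X).filter fun x => x (j i) ∈ Φ i x with hB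
  have h1 : Fintype.piFinset X ⊆ Finset.univ.biUnion B := by
    intro x hx
    obtain ⟨i, hi⟩ := hcon x (Fintype.mem_piFinset.1 hx)
    exact Finset.mem_biUnion.2 ⟨i, Finset.mem_univ _, Finset.mem_filter.2 ⟨hx, hi⟩⟩
  have h2 := (Finset.card_le_card h1).trans Finset.card_biUnion_le
  rw [Fintype.card_piFinset] at h2
  -- each bad set times `card ι` is less than `P`
  have h3 : ∀ i, Fintype.card ι * (B i).card < P := by
    intro i
    have hb := bad_card X (q (j i)) (j i) (Φ i) (hq i) (hind i)
    have hc := hX (j i)
    have hXpos : 0 < (X (j i)).card := lt_of_le_of_lt (Nat.zero_le _) hc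
    have h4 : (X (j i)).card * (Fintype.card ι * (B i).card) < (X (j i)).card * P := by
      calc (X (j i)).card * (Fintype.card ι * (B i).card)
          = Fintype.card ι * ((X (j i)).card * (B i).card) := by ring
        _ ≤ Fintype.card ι * (q (j i) * P) := Nat.mul_le_mul_left _ hb
        _ = (Fintype.card ι * q (j i)) * P := by ring
        _ < (X (j i)).card * P := Nat.mul_lt_mul_of_pos_right hc hPpos
    exact Nat.lt_of_mul_lt_mul_left h4
  rcases isEmpty_or_nonempty ι with hι | hι
  · have h0 : ∑ i : ι, (B i).card = 0 := Finset.sum_eq_zero fun i _ => (hι.false i).elim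
    rw [h0] at h2
    exact absurd hPpos (not_lt.2 h2)
  · have h5 : ∑ i : ι, Fintype.card ι * (B i).card < ∑ _i : ι, P :=
      Finset.sum_lt_sum_of_nonempty Finset.univ_nonempty fun i _ => h3 i
    rw [← Finset.mul_sum, Finset.sum_const, Finset.card_univ, smul_eq_mul] at h5
    have h6 : ∑ i : ι, (B i).card < P := Nat.lt_of_mul_lt_mul_left h5
    exact absurd h6 (not_lt.2 h2)

end Pool.Agent.H54Q
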