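import Pool.Agent.Lib.H54Q.Def

set_option autoImplicit false

namespace Pool.Agent.H54Q

/-- There is a box on the indices in `S` such that no word of the box which agrees with `u` outside of `S` is
available. -/
private def Bad {T : Type} (ℓ : ℕ) (X : T → Finset ℕ) (n : ℕ) (a : Fin n → T) (Av : (Fin n → ℕ) → Prop)
    (S : Set (Fin n)) (u : Fin n → ℕ) : Prop :=
  ∃ Λ : Fin n → Finset ℕ, (∀ j ∈ S, Λ j ⊆ X (a j) ∧ (Λ j).card = ℓ) ∧
    ∀ w, (∀ j ∈ S, w j ∈ Λ j) → (∀ j, j ∉ S → w j = u j) → ¬ Av w

private lemma Bad.congr {T : Type} {ℓ : ℕ} {X : T → Finset ℕ} {n : ℕ} {a : Fin n → T}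
    {Av : (Fin n → ℕ) → Prop} {S : Set (Fin n)} {u u' : Fin n → ℕ} (h : ∀ j, j ∉ S → u j = u' j)
    (hu : Bad ℓ X n a Av S u) : Bad ℓ X n a Av S u' := by
  obtain ⟨Λ, h1, h2⟩ := hu
  exact ⟨Λ, h1, fun w h3 h4 => h2 w h3 fun j hj => (h4 j hj).trans (h j hj).symm⟩

open Classical in
private lemma card_bad {T : Type} [Fintype T] [LinearOrder T] {ℓ : ℕ} (hℓ : 1 ≤ ℓ) (X : T → Finset ℕ) (n : ℕ)
    (a : Fin n → T) (ha : Function.Injective a) (Av : (Fin n → ℕ) → Prop) (j : Fin n) (u : Fin n → ℕ)
    (hD : ¬ Bad ℓ X n a Av {i | a i ≤ a j} u) :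
    ((X (a j)).filter fun y => Bad ℓ X n a Av {i | a i < a j} (Function.update u j y)).card ≤
      (ℓ - 1) * ∏ t ∈ Finset.univ.filter (fun t => t < a j), 2 ^ (X t).card := by
  set Y := (X (a j)).filter fun y => Bad ℓ X n a Av {i | a i < a j} (Function.update u j y) with hY
  have hYX : ∀ y ∈ Y, y ∈ X (a j) := fun y hy => (Finset.mem_filter.1 hy).1
  have hYB : ∀ y, y ∈ Y → Bad ℓ X n a Av {i | a i < a j} (Function.update u j y) :=
    fun y hy => (Finset.mem_filter.1 hy).2
  choose! Λ h1 h2 using hYB
  let f : ℕ → (t : T) → t ∈ Finset.univ.filter (fun t => t < a j) → Finset ℕ :=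
    fun y t _ => if h : ∃ i, a i = t then Λ y h.choose else ∅
  have hf : ∀ (y : ℕ) (i : Fin n) (hi : a i ∈ Finset.univ.filter (fun t => t < a j)), f y (a i) hi = Λ y i := by
    intro y i hi
    have h : ∃ i', a i' = a i := ⟨i, rfl⟩
    simp only [f]
    rw [dif_pos h]
    exact congrArg (Λ y) (ha h.choose_spec)
  have hmaps : ∀ y ∈ Y, f y ∈ Finset.pi (Finset.univ.filter (fun t => t < a j)) fun t => (X t).powerset := by
    intro y hy
    rw [Finset.mem_pi]
    intro t ht
    rw [Finset.mem_powerset]
    by_cases h : ∃ i, a i = t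
    · obtain ⟨i, rfl⟩ := h
      rw [hf y i ht]
      exact (h1 y hy i (Finset.mem_filter.1 ht).2).1
    · simp only [f]
      rw [dif_neg h]
      exact Finset.empty_subset _
  by_contra hcon
  push Not at hcon
  have hcard : (Finset.pi (Finset.univ.filter (fun t => t < a j)) fun t => (X t).powerset).card * (ℓ - 1) < Y.card := by
    rw [Finset.card_pi]
    simp only [Finset.card_powerset]
    rw [mul_comm]
    exact hcon
  obtain ⟨b, -, hb⟩ := Finset.exists_lt_card_fiber_of_mul_lt_card_of_maps_to hmaps hcard
  obtain ⟨Z, hZ, hZc⟩ := Finset.exists_subset_card_eq (s := Y.filter fun y => f y = b) (n := ℓ) (by omega)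
  have hZne : Z.Nonempty := by
    rw [← Finset.card_pos]
    omega
  obtain ⟨y0, hy0⟩ := hZne
  have hZY : ∀ y ∈ Z, y ∈ Y := fun y hy => (Finset.mem_filter.1 (hZ hy)).1
  have hZf : ∀ y ∈ Z, f y = b := fun y hy => (Finset.mem_filter.1 (hZ hy)).2
  apply hD
  refine ⟨fun i => if i = j then Z else Λ y0 i, ?_, ?_⟩
  · intro i hi
    by_cases hij : i = j
    · subst hij
      simp only [if_true]
      exact ⟨fun y hy => hYX y (hZY y hy), hZc⟩
    · simp only [if_neg hij]
      have hlt : a i < a j := lt_of_le_of_ne hi fun h => hij (ha h)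
      exact h1 y0 (hZY y0 hy0) i hlt
  · intro w hw hwu
    have hwj : w j ∈ Z := by
      have := hw j (le_refl (a j))
      simpa using this
    refine h2 (w j) (hZY _ hwj) w ?_ ?_
    · intro i hi
      have hij : i ≠ j := by
        rintro rfl
        exact lt_irrefl _ hi
      have h3 := hw i (le_of_lt hi)
      simp only [if_neg hij] at h3
      have hmem : a i ∈ Finset.univ.filter (fun t => t < a j) := Finset.mem_filter.2 ⟨Finset.mem_univ _, hi⟩
      rw [← hf (w j) i hmem, hZf _ hwj, ← hZf y0 hy0, hf y0 i hmem]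
      exact h3
    · intro i hi
      by_cases hij : i = j
      · subst hij
        rw [Function.update_self]
      · rw [Function.update_of_ne hij]
        refine hwu i fun hle => hi ?_
        exact lt_of_le_of_ne hle fun h => hij (ha h)

/-- Box lemma, sequential form (M-L).

Proof.  `a` injective, so the indices are ordered by `a`.  For `u` and `j` let `D j u` say: there is a box `Λ` on the
indices `j'` with `a j' ≤ a j` (`Λ j' ⊆ X (a j')`, `ℓ` elements) such that no word `w` with `w j' ∈ Λ j'` for
`a j' ≤ a j` and `w j' = u j'` for `a j < a j'` is available.  `E j u y`: the same with a box on the `j'` with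
`a j' < a j` and `w j = y`.  `Φ j u = {y ∈ X (a j) | E j u y}` if `¬ D j u`, and `∅` if `D j u`.  It does not depend on
`u j`.  Card: if more than `(ℓ - 1) * #boxes` values `y`, then `ℓ` of them have the same box (pigeonhole), these give
`D j u`; the number of boxes is at most `∏_{t < a j} 2 ^ (X t).card`.  Now let `u j ∈ X (a j)`, `u j ∉ Φ j u` for all
`j`.  `¬ D j u` for all `j`, from the largest `a j` (that is `hbox`) downwards: `¬ D j u` and `u j ∉ Φ j u` give
`¬ E j u (u j)`, which is `¬ D j' u` for the next smaller one; for the smallest one `¬ E j u (u j)` says that `u` is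
available (`n = 0`: `hbox` itself). Induction on `n` (remove the index with the largest `a j`) is another way: then
for fixed `y` the statement for the other indices with `Av' w = Av (w with y)`. -/
theorem box {T : Type} [Fintype T] [LinearOrder T] (ℓ : ℕ) (hℓ : 1 ≤ ℓ) (X : T → Finset ℕ) (n : ℕ) (a : Fin n → T)
    (ha : Function.Injective a) (Av : (Fin n → ℕ) → Prop)
    (hbox : ∀ Λ : Fin n → Finset ℕ, (∀ j, Λ j ⊆ X (a j) ∧ (Λ j).card = ℓ) → ∃ u, (∀ j, u j ∈ Λ j) ∧ Av u) :
    ∃ Φ : Fin n → (Fin n → ℕ) → Finset ℕ,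
      (∀ j u, (Φ j u).card ≤ (ℓ - 1) * ∏ t ∈ Finset.univ.filter (fun t => t < a j), 2 ^ (X t).card) ∧
      (∀ j u y, Φ j (Function.update u j y) = Φ j u) ∧
      ∀ u, (∀ j, u j ∈ X (a j)) → (∀ j, u j ∉ Φ j u) → Av u := by
  classical
  refine ⟨fun j u => if Bad ℓ X n a Av {i | a i ≤ a j} u then ∅ else
    (X (a j)).filter fun y => Bad ℓ X n a Av {i | a i < a j} (Function.update u j y), ?_, ?_, ?_⟩
  · intro j u
    by_cases h : Bad ℓ X n a Av {i | a i ≤ a j} u
    · simp only [if_pos h, Finset.card_empty]
      exact Nat.zero_le _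
    · simp only [if_neg h]
      have := card_bad hℓ X n a ha Av j u h
      convert this
  · intro j u y
    have h1 : Bad ℓ X n a Av {i | a i ≤ a j} (Function.update u j y) ↔ Bad ℓ X n a Av {i | a i ≤ a j} u := by
      have h2 : ∀ i, i ∉ {i | a i ≤ a j} → Function.update u j y i = u i := by
        intro i hi
        refine Function.update_of_ne ?_ _ _
        rintro rfl
        exact hi (le_refl (a i))
      exact ⟨Bad.congr h2, Bad.congr fun i hi => (h2 i hi).symm⟩
    simp only [h1, Function.update_idem]
  · intro u huX huΦ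
    -- sets closed downwards
    have key : ∀ m : ℕ, m ≤ n → ∃ S : Finset (Fin n), S.card = n - m ∧
        (∀ i ∈ S, ∀ i', a i' < a i → i' ∈ S) ∧ ¬ Bad ℓ X n a Av (S : Set (Fin n)) u := by
      intro m
      induction m with
      | zero =>
        intro _
        refine ⟨Finset.univ, by simp, fun _ _ _ _ => Finset.mem_univ _, ?_⟩
        rintro ⟨Λ, h1, h2⟩
        obtain ⟨w, h3, h4⟩ := hbox Λ fun j => h1 j (by simp)
        exact h2 w (fun j _ => h3 j) (fun j hj => absurd (by simp) hj) h4
      | succ m ih =>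
        intro hm
        obtain ⟨S, hS1, hS2, hS3⟩ := ih (by omega)
        have hne : S.Nonempty := by
          rw [← Finset.card_pos]
          omega
        obtain ⟨j, hj, hjmax⟩ := Finset.exists_max_image S a hne
        have hle : (S : Set (Fin n)) = {i | a i ≤ a j} := by
          ext i
          simp only [Finset.mem_coe, Set.mem_setOf_eq]
          refine ⟨fun hi => hjmax i hi, fun hi => ?_⟩
          rcases lt_or_eq_of_le hi with h | h
          · exact hS2 j hj i h
          · rw [ha h]
            exact hj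
        have hlt : ((S.erase j : Finset (Fin n)) : Set (Fin n)) = {i | a i < a j} := by
          ext i
          simp only [Finset.coe_erase, Set.mem_diff, Set.mem_singleton_iff, Set.mem_setOf_eq]
          rw [hle]
          simp only [Set.mem_setOf_eq]
          refine ⟨fun hi => lt_of_le_of_ne hi.1 fun h => hi.2 (ha h), fun hi => ⟨le_of_lt hi, ?_⟩⟩
          rintro rfl
          exact lt_irrefl _ hi
        refine ⟨S.erase j, by rw [Finset.card_erase_of_mem hj]; omega, ?_, ?_⟩
        · intro i hi i' hi'
          rw [Finset.mem_erase] at hi ⊢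
          refine ⟨?_, hS2 i hi.2 i' hi'⟩
          rintro rfl
          exact absurd (hjmax i hi.2) (not_le_of_gt hi')
        · rw [hlt]
          rw [hle] at hS3
          intro hbad
          apply huΦ j
          simp only [if_neg hS3, Finset.mem_filter]
          refine ⟨huX j, ?_⟩
          rw [Function.update_eq_self]
          exact hbad
    obtain ⟨S, hS1, -, hS3⟩ := key n le_rfl
    have hS : S = ∅ := by
      rw [← Finset.card_eq_zero]
      omega
    subst hS
    by_contra hAv
    apply hS3
    refine ⟨fun _ => ∅, fun j hj => absurd hj (by simp), fun w _ hw => ?_⟩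
    have : w = u := funext fun j => hw j (by simp)
    rw [this]
    exact hAv

end Pool.Agent.H54Q
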