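import Pool.Agent.Lib.H54Q.Q3
import Pool.Agent.Lib.H54Q.Q4

set_option autoImplicit false

namespace Pool.Agent.H54Q

private theorem exists_sizes {T : Type} [Fintype T] [LinearOrder T] (K ℓ : ℕ) :
    ∃ r : T → ℕ, ∀ t, r t = K * ∏ t' ∈ Finset.univ.filter (fun t' => t' < t), 2 ^ (r t') + ℓ + 1 := by
  let r : T → ℕ := (wellFounded_lt (α := T)).fix fun t ih =>
    K * ∏ t' ∈ (Finset.univ.filter (fun t' => t' < t)).attach, 2 ^ (ih t'.1 (Finset.mem_filter.1 t'.2).2) + ℓ + 1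
  refine ⟨r, fun t => ?_⟩
  have h := (wellFounded_lt (α := T)).fix_eq (fun t (ih : (y : T) → y < t → ℕ) =>
    K * ∏ t' ∈ (Finset.univ.filter (fun t' => t' < t)).attach, 2 ^ (ih t'.1 (Finset.mem_filter.1 t'.2).2) + ℓ + 1) t
  have h2 : ∏ t' ∈ (Finset.univ.filter (fun t' => t' < t)).attach, 2 ^ (r t'.1) =
      ∏ t' ∈ Finset.univ.filter (fun t' => t' < t), 2 ^ (r t') :=
    Finset.prod_attach (Finset.univ.filter (fun t' => t' < t)) (fun t' => 2 ^ (r t'))
  rw [← h2]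
  exact h

private theorem exists_palettes {T : Type} [Fintype T] [LinearOrder T] (K ℓ N₀ : ℕ) :
    ∃ X : T → Finset ℕ, (∀ t, K * ∏ t' ∈ Finset.univ.filter (fun t' => t' < t), 2 ^ (X t').card < (X t).card) ∧
      (∀ t, ℓ ≤ (X t).card) ∧ (∀ s t, s ≠ t → Disjoint (X s) (X t)) ∧ ∀ t, ∀ c ∈ X t, N₀ ≤ c := by
  obtain ⟨r, hr⟩ := exists_sizes (T := T) K ℓ
  obtain ⟨s, hs⟩ : ∃ s : T → ℕ, s = fun t => N₀ + ∑ t' ∈ Finset.univ.filter (fun t' => t' < t), r t' := ⟨_, rfl⟩
  have hcard : ∀ t, (Finset.Ico (s t) (s t + r t)).card = r t := by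
    intro t
    rw [Nat.card_Ico, Nat.add_sub_cancel_left]
  have hlt : ∀ t1 t2, t1 < t2 → s t1 + r t1 ≤ s t2 := by
    intro t1 t2 h
    have h1 : insert t1 (Finset.univ.filter (fun t' => t' < t1)) ⊆ Finset.univ.filter (fun t' => t' < t2) := by
      intro t ht
      rw [Finset.mem_filter]
      refine ⟨Finset.mem_univ _, ?_⟩
      rcases Finset.mem_insert.1 ht with h2 | h2
      · rw [h2]; exact h
      · exact (Finset.mem_filter.1 h2).2.trans h
    have h2 : ∑ t' ∈ insert t1 (Finset.univ.filter (fun t' => t' < t1)), r t' ≤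
        ∑ t' ∈ Finset.univ.filter (fun t' => t' < t2), r t' :=
      Finset.sum_le_sum_of_subset h1
    have hn : t1 ∉ Finset.univ.filter (fun t' => t' < t1) := fun h3 =>
      lt_irrefl _ (Finset.mem_filter.1 h3).2
    rw [Finset.sum_insert hn] at h2
    rw [hs]
    show N₀ + ∑ t' ∈ Finset.univ.filter (fun t' => t' < t1), r t' + r t1 ≤
      N₀ + ∑ t' ∈ Finset.univ.filter (fun t' => t' < t2), r t'
    omega
  have hdisj : ∀ t1 t2, t1 < t2 → Disjoint (Finset.Ico (s t1) (s t1 + r t1)) (Finset.Ico (s t2) (s t2 + r t2)) := by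
    intro t1 t2 h
    rw [Finset.disjoint_left]
    intro c h1 h2
    rw [Finset.mem_Ico] at h1 h2
    have := hlt t1 t2 h
    omega
  refine ⟨fun t => Finset.Ico (s t) (s t + r t), fun t => ?_, fun t => ?_, fun t1 t2 h => ?_, fun t c hc => ?_⟩
  · simp only [hcard]
    have := hr t
    omega
  · rw [hcard]
    have := hr t
    omega
  · rcases lt_or_gt_of_ne h with h | h
    · exact hdisj t1 t2 h
    · exact (hdisj t2 t1 h).symm
  · rw [Finset.mem_Ico] at hc
    have h1 := hc.1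
    rw [hs] at h1
    exact (Nat.le_add_right _ _).trans h1

/-- Generic letters, abstract form (M).

Proof.  `ι = C × Fin (L + 1)`, `q t = (ℓ - 1) * ∏_{t' < t} 2 ^ (X t').card`.  Choose `X t` by recursion along the finite
linear order `T` (e.g. `X t = Finset.Ico (s t) (s t + r t)` with `N₀ ≤ s t`, `s`, `r` growing, or strong induction with
sets): `card ι * q t < (X t).card`, `ℓ ≤ (X t).card`, all elements `≥ N₀`, disjoint.  For each `c` and `x` apply
`box` to `Av c x` (`hbox`), giving `Φ c x`; the condition `(c, j)` is `x (a c j) ∉ Φ c x j (x ∘ a c)`.  It must be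
independent of `x (a c j)`: choose the `Φ` of `box` as a function of the predicate `Av c x` only, which does not change
under the update (`hind`, funext/propext), e.g. with `Classical.choose` on a predicate argument; then use the second
clause of `box`.  `exists_good` gives `x`, the third clause of `box` gives `Av c x (x ∘ a c)`. -/
theorem generic {C T : Type} [Fintype C] [Fintype T] [LinearOrder T] (L ℓ N₀ : ℕ) (hℓ : 1 ≤ ℓ) :
    ∃ X : T → Finset ℕ, (∀ t, ℓ ≤ (X t).card) ∧ (∀ s t, s ≠ t → Disjoint (X s) (X t)) ∧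
      (∀ t, ∀ c ∈ X t, N₀ ≤ c) ∧
      ∀ (a : C → Fin (L + 1) → T) (Av : C → (T → ℕ) → (Fin (L + 1) → ℕ) → Prop),
        (∀ c, Function.Injective (a c)) →
        (∀ c x j y u, Av c (Function.update x (a c j) y) u ↔ Av c x u) →
        (∀ c x, ∀ Λ : Fin (L + 1) → Finset ℕ, (∀ j, Λ j ⊆ X (a c j) ∧ (Λ j).card = ℓ) →
          ∃ u, (∀ j, u j ∈ Λ j) ∧ Av c x u) →
        ∃ x : T → ℕ, (∀ t, x t ∈ X t) ∧ ∀ c, Av c x (fun j => x (a c j)) := by
  obtain ⟨X, hX1, hX2, hX3, hX4⟩ := exists_palettes (T := T) (Fintype.card (C × Fin (L + 1)) * (ℓ - 1)) ℓ N₀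
  refine ⟨X, hX2, hX3, hX4, fun a Av ha hind hbox => ?_⟩
  have hB : ∀ (c : C) (P : (Fin (L + 1) → ℕ) → Prop), ∃ Φ : Fin (L + 1) → (Fin (L + 1) → ℕ) → Finset ℕ,
      (∀ Λ : Fin (L + 1) → Finset ℕ, (∀ j, Λ j ⊆ X (a c j) ∧ (Λ j).card = ℓ) → ∃ u, (∀ j, u j ∈ Λ j) ∧ P u) →
      (∀ j u, (Φ j u).card ≤ (ℓ - 1) * ∏ t ∈ Finset.univ.filter (fun t => t < a c j), 2 ^ (X t).card) ∧
      (∀ j u y, Φ j (Function.update u j y) = Φ j u) ∧
      ∀ u, (∀ j, u j ∈ X (a c j)) → (∀ j, u j ∉ Φ j u) → P u := by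
    intro c P
    by_cases h : ∀ Λ : Fin (L + 1) → Finset ℕ, (∀ j, Λ j ⊆ X (a c j) ∧ (Λ j).card = ℓ) →
        ∃ u, (∀ j, u j ∈ Λ j) ∧ P u
    · obtain ⟨Φ, hΦ⟩ := box ℓ hℓ X (L + 1) (a c) (ha c) P h
      exact ⟨Φ, fun _ => hΦ⟩
    · exact ⟨fun _ _ => ∅, fun h' => absurd h' h⟩
  choose Φ hΦ using hB
  have hAv : ∀ c x j y, Av c (Function.update x (a c j) y) = Av c x := by
    intro c x j y
    funext u
    exact propext (hind c x j y u)
  have hup : ∀ (c : C) (x : T → ℕ) (j : Fin (L + 1)) (y : ℕ),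
      (fun j' => Function.update x (a c j) y (a c j')) = Function.update (fun j' => x (a c j')) j y := by
    intro c x j y
    funext j'
    by_cases h : j' = j
    · rw [h, Function.update_self, Function.update_self]
    · rw [Function.update_of_ne h, Function.update_of_ne (fun e => h (ha c e))]
  obtain ⟨x, hx1, hx2⟩ := exists_good (ι := C × Fin (L + 1)) X
    (fun t => (ℓ - 1) * ∏ t' ∈ Finset.univ.filter (fun t' => t' < t), 2 ^ (X t').card)
    (fun t => by
      have := hX1 t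
      rwa [Nat.mul_assoc] at this)
    (fun i => a i.1 i.2) (fun i x => Φ i.1 (Av i.1 x) i.2 (fun j' => x (a i.1 j')))
    (fun i x => (hΦ i.1 (Av i.1 x) (hbox i.1 x)).1 i.2 _)
    (fun i x y => by
      show Φ i.1 (Av i.1 (Function.update x (a i.1 i.2) y)) i.2
        (fun j' => Function.update x (a i.1 i.2) y (a i.1 j')) = Φ i.1 (Av i.1 x) i.2 (fun j' => x (a i.1 j'))
      rw [hAv, hup]
      exact (hΦ i.1 (Av i.1 x) (hbox i.1 x)).2.1 i.2 _ y)
  refine ⟨x, hx1, fun c => ?_⟩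
  exact (hΦ c (Av c x) (hbox c x)).2.2 (fun j => x (a c j)) (fun j => hx1 (a c j)) fun j => hx2 (c, j)

end Pool.Agent.H54Q
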