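import Pool.Agent.Lib.H54Q.Def

set_option autoImplicit false

namespace Pool.Agent.H54Q

private theorem rep_legal {M : ℕ} (k L : ℕ) (w : List (Option (Fin M))) (hw : Legal k L w)
    (h1 : 1 ≤ (st k w).1) : ∀ j : ℕ, (st k w).2 + j ≤ L →
      Legal k L (List.replicate j none ++ w) ∧
        st k (List.replicate j none ++ w) = ((st k w).1, (st k w).2 + j) := by
  intro j
  induction j with
  | zero =>
    intro _
    exact ⟨hw, rfl⟩
  | succ j ih =>
    intro hj
    obtain ⟨h2, h3⟩ := ih (by omega)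
    have e : List.replicate (j + 1) (none : Option (Fin M)) ++ w = none :: (List.replicate j none ++ w) := rfl
    rw [e]
    refine ⟨⟨h2, by rw [h3]; exact h1, by rw [h3]; show (st k w).2 + j < L; omega⟩, ?_⟩
    show ((st k (List.replicate j none ++ w)).1, (st k (List.replicate j none ++ w)).2 + 1) = _
    rw [h3]
    rfl

/-- Tails of legal words are legal; levels and positions of nodes; legality of the vertices of the spines (S-M).

Proof.  Induction on `d`. -/
theorem legal_tail {M : ℕ} (k L : ℕ) (t v : List (Option (Fin M))) (h : Legal k L (t ++ v)) : Legal k L v := by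
  induction t with
  | nil => exact h
  | cons x t ih =>
    cases x with
    | none => exact ih h.1
    | some b => exact ih h.1

theorem nd_legal {M : ℕ} (K L : ℕ) (ch : Bool → List (Option (Fin M)) → (ℕ → ℕ) → Fin M) (β : ℕ → Bool) (p : ℕ → ℕ)
    (hp : ∀ d, p d ≤ L) (u : ℕ → ℕ → ℕ) (d : ℕ) (hd : d ≤ K) :
    Legal (K + 1) L (nd ch β p u d) ∧ st (K + 1) (nd ch β p u d) = (K + 1 - d, p d) := by
  induction d with
  | zero =>
    have h := rep_legal (M := M) (K + 1) L [] trivial (by show 1 ≤ K + 1; omega) (p 0)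
      (by show 0 + p 0 ≤ L; have := hp 0; omega)
    rw [List.append_nil] at h
    refine ⟨h.1, ?_⟩
    show st (K + 1) (List.replicate (p 0) none) = _
    rw [h.2]
    show (K + 1, 0 + p 0) = (K + 1 - 0, p 0)
    rw [Nat.zero_add, Nat.sub_zero]
  | succ d ih =>
    obtain ⟨h1, h2⟩ := ih (by omega)
    have hst : st (K + 1) (some (ch (β d) (nd ch β p u d) (u d)) :: nd ch β p u d) = (K + 1 - d - 1, 0) := by
      show ((st (K + 1) (nd ch β p u d)).1 - 1, 0) = _
      rw [h2]
    have h := rep_legal (K + 1) L (some (ch (β d) (nd ch β p u d) (u d)) :: nd ch β p u d)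
      ⟨h1, by rw [h2]; show 1 ≤ K + 1 - d; omega⟩
      (by rw [hst]; show 1 ≤ K + 1 - d - 1; omega) (p (d + 1))
      (by rw [hst]; show 0 + p (d + 1) ≤ L; have := hp (d + 1); omega)
    refine ⟨h.1, ?_⟩
    show st (K + 1) (List.replicate (p (d + 1)) none ++
      some (ch (β d) (nd ch β p u d) (u d)) :: nd ch β p u d) = _
    rw [h.2, hst]
    show (K + 1 - d - 1, 0 + p (d + 1)) = (K + 1 - (d + 1), p (d + 1))
    rw [Nat.zero_add, Nat.sub_sub]

theorem spine_legal {M : ℕ} (k L : ℕ) (v : List (Option (Fin M))) (hv : Legal k L v) (h2 : 2 ≤ (st k v).1)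
    (b : Fin M) (j : ℕ) (hj : j ≤ L) : Legal k L (List.replicate j none ++ some b :: v) := by
  have hst : st k (some b :: v) = ((st k v).1 - 1, 0) := rfl
  exact (rep_legal k L (some b :: v) ⟨hv, by omega⟩ (by rw [hst]; show 1 ≤ (st k v).1 - 1; omega) j
    (by rw [hst]; show 0 + j ≤ L; omega)).1

theorem top_legal {M : ℕ} (k L : ℕ) (hk : 1 ≤ k) (j : ℕ) (hj : j ≤ L) :
    Legal k L (List.replicate j (none : Option (Fin M))) := by
  have h := (rep_legal (M := M) k L [] trivial hk j (by show 0 + j ≤ L; omega)).1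
  rwa [List.append_nil] at h

end Pool.Agent.H54Q
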