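import Pool.Agent.Lib.H54Q.Q5
import Pool.Agent.Lib.H54Q.Q6

set_option autoImplicit false

namespace Pool.Agent.H54Q

private theorem nd_congr {M : ℕ} (ch : Bool → List (Option (Fin M)) → (ℕ → ℕ) → Fin M) (β β' : ℕ → Bool)
    (p p' : ℕ → ℕ) (u u' : ℕ → ℕ → ℕ) (d : ℕ) (hβ : ∀ e, e < d → β e = β' e) (hp : ∀ e, e ≤ d → p e = p' e)
    (hu : ∀ e, e < d → u e = u' e) : nd ch β p u d = nd ch β' p' u' d := by
  induction d with
  | zero =>
    show List.replicate (p 0) none = List.replicate (p' 0) none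
    rw [hp 0 le_rfl]
  | succ d ih =>
    have h1 := ih (fun e he => hβ e (by omega)) (fun e he => hp e (by omega)) (fun e he => hu e (by omega))
    show List.replicate (p (d + 1)) none ++ some (ch (β d) (nd ch β p u d) (u d)) :: nd ch β p u d =
      List.replicate (p' (d + 1)) none ++ some (ch (β' d) (nd ch β' p' u' d) (u' d)) :: nd ch β' p' u' d
    rw [h1, hβ d (by omega), hp (d + 1) le_rfl, hu d (by omega)]

private def extB {K : ℕ} (β : Fin K → Bool) : ℕ → Bool := fun d => if h : d < K then β ⟨d, h⟩ else true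

private def extP {K L : ℕ} (p : Fin (K + 1) → Fin (L + 1)) : ℕ → ℕ := fun d => if h : d < K + 1 then (p ⟨d, h⟩).1 else 0

/-- Generic letters for all configurations (M).

Proof.  Apply `generic` with `T = Fin K × Fin (L + 1)` (a linear order: transport along an equivalence with `Fin n`, or
`Fin K ×ₗ Fin (L + 1)`), `C = (Fin K → Bool) × (Fin (K + 1) → Fin (L + 1)) × Equiv.Perm T × Fin K`,
`a (β, p, π, d) j = π (d, j)`, `Av (β, p, π, d) x u` = there is `b` with `tag b = β d` and
`f (replicate j none ++ some b :: v) = u j` for all `j ≤ L`, where `v = nd ch β p (uu x π) d` (extend `β`, `p` by `true`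
and `0`).  `hind`: `nd .. d` depends on `uu x π d'` for `d' < d` only, and `π (d', j') ≠ π (d, j)`.  `hbox` by
`nd_legal` (level `K + 1 - d ≥ 2`).  At the end: `nd ch β p u d` for `β p : ℕ → _` depends only on the values at
indices `≤ d`, so it is the one of a configuration in `C`. -/
theorem generic_conf (K L ℓ N₀ : ℕ) (hℓ : 1 ≤ ℓ) :
    ∃ X : Fin K × Fin (L + 1) → Finset ℕ, (∀ t, ℓ ≤ (X t).card) ∧ (∀ s t, s ≠ t → Disjoint (X s) (X t)) ∧
      (∀ t, ∀ c ∈ X t, N₀ ≤ c) ∧
      ∀ (M : ℕ) (f : List (Option (Fin M)) → ℕ) (tag : Fin M → Bool)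
        (ch : Bool → List (Option (Fin M)) → (ℕ → ℕ) → Fin M),
        (∀ β v y, (∃ b, tag b = β ∧ ∀ j, j ≤ L → f (List.replicate j none ++ some b :: v) = y j) →
          Avail L f tag ch β v y) →
        (∀ (β : Bool) (v : List (Option (Fin M))), Legal (K + 1) L v → 2 ≤ (st (K + 1) v).1 →
          ∀ (a : Fin (L + 1) → Fin K × Fin (L + 1)), Function.Injective a → ∀ Λ : Fin (L + 1) → Finset ℕ,
            (∀ j, Λ j ⊆ X (a j) ∧ (Λ j).card = ℓ) →
            ∃ b, tag b = β ∧ ∀ j : Fin (L + 1), f (List.replicate j.1 none ++ some b :: v) ∈ Λ j) →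
        ∃ x : Fin K × Fin (L + 1) → ℕ, (∀ t, x t ∈ X t) ∧
          ∀ (β : ℕ → Bool) (p : ℕ → ℕ), (∀ d, p d ≤ L) → ∀ (π : Equiv.Perm (Fin K × Fin (L + 1))) (d : ℕ), d < K →
            Avail L f tag ch (β d) (nd ch β p (uu x π) d) (uu x π d) := by
  classical
  let _ : LinearOrder (Fin K × Fin (L + 1)) := LinearOrder.lift' finProdFinEquiv finProdFinEquiv.injective
  obtain ⟨X, h1, h2, h3, hgen⟩ := generic (C := (Fin K → Bool) × (Fin (K + 1) → Fin (L + 1)) ×
    Equiv.Perm (Fin K × Fin (L + 1)) × Fin K) (T := Fin K × Fin (L + 1)) L ℓ N₀ hℓ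
  refine ⟨X, h1, h2, h3, ?_⟩
  intro M f tag ch hch hbox
  obtain ⟨x, hx, hav⟩ := hgen (fun c j => c.2.2.1 (c.2.2.2, j))
    (fun c x u => ∃ b, tag b = c.1 c.2.2.2 ∧ ∀ j : Fin (L + 1),
      f (List.replicate j.1 none ++ some b :: nd ch (extB c.1) (extP c.2.1) (uu x c.2.2.1) c.2.2.2.1) = u j)
    (by
      intro c j j' h
      have := c.2.2.1.injective h
      exact (Prod.mk.inj this).2)
    (by
      rintro ⟨β, p, π, d⟩ x j y u
      have hnd : ∀ z : Fin K × Fin (L + 1) → ℕ, (∀ t, t ≠ π (d, j) → z t = x t) →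
          nd ch (extB β) (extP p) (uu z π) d.1 = nd ch (extB β) (extP p) (uu x π) d.1 := by
        intro z hz
        apply nd_congr ch _ _ _ _ _ _ _ (fun _ _ => rfl) (fun _ _ => rfl)
        intro e he
        funext i
        unfold uu
        by_cases h : e < K ∧ i < L + 1
        · rw [dif_pos h, dif_pos h, hz]
          intro h'
          have h4 := π.injective h'
          have h5 := congrArg (fun q => q.1.1) h4
          simp only at h5
          omega
        · rw [dif_neg h, dif_neg h]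
      show (∃ b, _) ↔ (∃ b, _)
      rw [hnd _ (fun t ht => by unfold Function.update; exact dif_neg ht)])
    (by
      rintro ⟨β, p, π, d⟩ x Λ hΛ
      have hP : ∀ e, extP p e ≤ L := by
        intro e
        unfold extP
        split_ifs with h
        · exact Nat.lt_succ_iff.mp (p ⟨e, h⟩).2
        · exact Nat.zero_le _
      obtain ⟨h4, h5⟩ := nd_legal K L ch (extB β) (extP p) hP (uu x π) d.1 d.2.le
      obtain ⟨b, hb, hb'⟩ := hbox (β d) (nd ch (extB β) (extP p) (uu x π) d.1) h4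
        (by rw [h5]; show 2 ≤ K + 1 - d.1; have := d.2; omega) (fun j => π (d, j))
        (fun j j' h => (Prod.mk.inj (π.injective h)).2) Λ hΛ
      exact ⟨fun j => f (List.replicate j.1 none ++ some b :: nd ch (extB β) (extP p) (uu x π) d.1), hb',
        b, hb, fun j => rfl⟩)
  refine ⟨x, hx, ?_⟩
  intro β p hp π d hd
  apply hch
  obtain ⟨b, hb, hb'⟩ := hav (fun e => β e.1, fun e => ⟨p e.1, Nat.lt_succ_of_le (hp e.1)⟩, π, ⟨d, hd⟩)
  refine ⟨b, hb, fun j hj => ?_⟩
  have hnd : nd ch β p (uu x π) d = nd ch (extB fun e : Fin K => β e.1)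
      (extP fun e : Fin (K + 1) => (⟨p e.1, Nat.lt_succ_of_le (hp e.1)⟩ : Fin (L + 1))) (uu x π) d := by
    apply nd_congr
    · intro e he
      unfold extB
      rw [dif_pos (by omega)]
    · intro e he
      unfold extP
      rw [dif_pos (by omega)]
    · intro e _
      rfl
  rw [hnd]
  have h6 := hb' ⟨j, by omega⟩
  simp only at h6
  rw [h6]
  unfold uu
  rw [dif_pos ⟨hd, by omega⟩]

end Pool.Agent.H54Q
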