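import Pool.Agent.Lib.H54Q.Q6

set_option autoImplicit false

namespace Pool.Agent.H54Q

private theorem q8_mem {α : Type} (v : List α) : ∀ (t : List α) (w : List α),
    w ∈ upl v t → ∃ s p : List α, t = p ++ s ∧ s ≠ [] ∧ w = s ++ v := by
  intro t
  induction t with
  | nil =>
    intro w hw
    exact absurd hw List.not_mem_nil
  | cons c t ih =>
    intro w hw
    rcases List.mem_cons.1 hw with h | h
    · exact ⟨c :: t, [], rfl, List.cons_ne_nil _ _, h⟩
    · obtain ⟨s, p, h1, h2, h3⟩ := ih w h
      exact ⟨s, c :: p, by rw [h1]; rfl, h2, h3⟩

private theorem q8_head {α : Type} (v : List α) (t : List α) : (upl v t ++ [v]).head? = some (t ++ v) := by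
  cases t with
  | nil => rfl
  | cons c t => rfl

private theorem q8_chain {α : Type} (v : List α) : ∀ t : List α, (upl v t ++ [v]).IsChain Par := by
  intro t
  induction t with
  | nil => exact List.isChain_singleton _
  | cons c t ih =>
    show List.IsChain Par (((c :: t) ++ v) :: (upl v t ++ [v]))
    rw [List.isChain_cons]
    refine ⟨fun y hy => ?_, ih⟩
    rw [q8_head] at hy
    have h1 : t ++ v = y := Option.some.inj hy
    rw [← h1]
    exact Or.inl ⟨c, rfl⟩

private theorem q8_nodup {α : Type} (v : List α) : ∀ t : List α, (upl v t ++ [v]).Nodup := by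
  intro t
  induction t with
  | nil => exact List.nodup_singleton _
  | cons c t ih =>
    show (((c :: t) ++ v) :: (upl v t ++ [v])).Nodup
    refine List.nodup_cons.2 ⟨fun h => ?_, ih⟩
    rcases List.mem_append.1 h with h | h
    · obtain ⟨s, p, h1, _, h3⟩ := q8_mem v t _ h
      have h4 := congrArg List.length h1
      have h5 := congrArg List.length h3
      simp only [List.length_cons, List.length_append] at h4 h5
      omega
    · have h1 : (c :: t) ++ v = v := by simpa using h
      have h2 := congrArg List.length h1
      simp only [List.length_cons, List.length_append] at h2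
      omega

private theorem q8_last {α : Type} {t s p : List α} (h : t = p ++ s) (hs : s ≠ []) :
    t.getLast? = s.getLast? := by
  rw [h, List.getLast?_append]
  cases h1 : s.getLast? with
  | none => exact absurd (List.getLast?_eq_none_iff.1 h1) hs
  | some c => rfl

/-- The repetition for the own colour (M).

Proof.  `l = (b₀ :: (t ++ v)) :: (upl v t ++ v :: (upl v t').reverse)`, `a = f v :: (upl v t).map f`.  The lengths of the
words in `upl v t` decrease by one, the members of `upl v t` (and `b₀ :: (t ++ v)` if `t ≠ []`) have the suffix
`c :: v`, `c` the last letter of `t`, the members of `upl v t'` the suffix `c' :: v`, and `c ≠ c'`.  If `t = []` then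
`t' = []` by `hr`.  Compare `H54LB/T5.lean`. -/
theorem rep_own {M : ℕ} (k L : ℕ) (f : List (Option (Fin M)) → ℕ) (v t t' : List (Option (Fin M)))
    (b₀ : Option (Fin M)) (h1 : Legal k L (b₀ :: (t ++ v))) (h2 : Legal k L (t' ++ v))
    (hd : ∀ b b', t.getLast? = some b → t'.getLast? = some b' → b ≠ b') (hc : f (b₀ :: (t ++ v)) = f v)
    (hr : (upl v t').map f = ((upl v t).map f).reverse) :
    ∃ l : List (List (Option (Fin M))), l.IsChain Par ∧ l.Nodup ∧ (∀ w ∈ l, Legal k L w) ∧
      ∃ a : List ℕ, a ≠ [] ∧ l.map f = a ++ a := by
  refine ⟨(upl v (b₀ :: t) ++ [v]) ++ (upl v t').reverse, ?_, ?_, ?_, f v :: (upl v t).map f,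
    List.cons_ne_nil _ _, ?_⟩
  · rw [List.append_assoc]
    show (upl v (b₀ :: t) ++ v :: (upl v t').reverse).IsChain Par
    rw [List.isChain_split]
    refine ⟨q8_chain v (b₀ :: t), ?_⟩
    have e : v :: (upl v t').reverse = (upl v t' ++ [v]).reverse := by simp
    rw [e, List.isChain_reverse]
    exact (q8_chain v t').imp fun _ _ h => h.symm
  · refine List.nodup_append.2 ⟨q8_nodup v (b₀ :: t), ?_, ?_⟩
    · exact List.nodup_reverse.2 (q8_nodup v t').of_append_left
    · intro x hx y hy hxy
      rw [List.mem_reverse] at hy
      obtain ⟨s', p', h5, h6, h7⟩ := q8_mem v t' y hy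
      rcases List.mem_append.1 hx with hx | hx
      · obtain ⟨s, p, h3, h4, h8⟩ := q8_mem v (b₀ :: t) x hx
        have h9 : s = s' := by
          have h10 : s ++ v = s' ++ v := by rw [← h8, hxy, h7]
          exact List.append_cancel_right h10
        cases t with
        | nil =>
          have h10 : (upl v t').map f = [] := hr
          rw [List.map_eq_nil_iff] at h10
          rw [h10] at hy
          exact absurd hy List.not_mem_nil
        | cons c t =>
          have h10 := q8_last h3 h4
          have h11 := q8_last h5 h6
          rw [List.getLast?_cons_cons, h9] at h10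
          cases h12 : s'.getLast? with
          | none => exact absurd (List.getLast?_eq_none_iff.1 h12) h6
          | some a =>
            rw [h12] at h10 h11
            exact hd a a h10 h11 rfl
      · have h8 : x = v := by simpa using hx
        rw [← hxy, h8] at h7
        have h9 := congrArg List.length h7
        rw [List.length_append] at h9
        have h10 : 0 < s'.length := List.length_pos_iff.2 h6
        omega
  · intro w hw
    rcases List.mem_append.1 hw with h | h
    · rcases List.mem_append.1 h with h | h
      · obtain ⟨s, p, h3, _, h4⟩ := q8_mem v (b₀ :: t) w h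
        rw [h4]
        refine legal_tail k L p (s ++ v) ?_
        rw [← List.append_assoc, ← h3]
        exact h1
      · have h8 : w = v := by simpa using h
        rw [h8]
        exact legal_tail k L t' v h2
    · rw [List.mem_reverse] at h
      obtain ⟨s, p, h3, _, h4⟩ := q8_mem v t' w h
      rw [h4]
      refine legal_tail k L p (s ++ v) ?_
      rw [← List.append_assoc, ← h3]
      exact h2
  · show List.map f ((((b₀ :: t) ++ v) :: upl v t ++ [v]) ++ (upl v t').reverse) = _
    simp only [List.map_cons, List.map_append, List.map_reverse, hr, List.reverse_reverse, List.cons_append,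
      List.append_assoc, List.nil_append, hc]

end Pool.Agent.H54Q
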